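import Mathlib
import Pool.Agent.Lib.P4a7640.Mertens

/-!
# Logarithmic mean of `n ↦ ∏_{p : v_p(n) odd} b_p`
-/

set_option autoImplicit false

open Finset Real

namespace Pool.Agent.Lib.P4a7640

/-- The set of primes dividing `k` to an odd power. -/
def oddPrimes (k : ℕ) : Finset ℕ := k.primeFactors.filter (fun p => Odd (k.factorization p))

lemma mem_oddPrimes {k p : ℕ} : p ∈ oddPrimes k ↔ Odd (k.factorization p) := by
  unfold oddPrimes
  rw [mem_filter]
  constructor
  · exact fun h => h.2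
  · intro h
    refine ⟨?_, h⟩
    rw [← Nat.support_factorization, Finsupp.mem_support_iff]
    intro h0
    rw [h0] at h
    exact absurd h (by decide)

lemma prime_of_mem_oddPrimes {k p : ℕ} (h : p ∈ oddPrimes k) : p.Prime :=
  Nat.prime_of_mem_primeFactors (mem_filter.1 h).1

lemma dvd_of_mem_oddPrimes {k p : ℕ} (h : p ∈ oddPrimes k) : p ∣ k :=
  Nat.dvd_of_mem_primeFactors (mem_filter.1 h).1

/-- decomposition `n = m² a`. -/
lemma exists_decomp (n : ℕ) (hn : 1 ≤ n) :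
    ∃ m : ℕ, ∃ a : ℕ, m ^ 2 * a = n ∧ Squarefree a ∧ 1 ≤ m ∧ 1 ≤ a ∧ oddPrimes n = a.primeFactors := by
  obtain ⟨a, m, hma, hsq⟩ := Nat.sq_mul_squarefree n
  have hm : m ≠ 0 := by rintro rfl; simp at hma; omega
  have ha : a ≠ 0 := by rintro rfl; simp at hma; omega
  refine ⟨m, a, hma, hsq, by omega, by omega, ?_⟩
  ext p
  rw [mem_oddPrimes, ← hma, Nat.factorization_mul (pow_ne_zero 2 hm) ha, Nat.factorization_pow]
  simp only [Finsupp.coe_add, Finsupp.coe_smul, Pi.add_apply, Pi.smul_apply, smul_eq_mul]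
  have h1 : a.factorization p ≤ 1 := hsq.natFactorization_le_one p
  have h2 : p ∈ a.primeFactors ↔ a.factorization p ≠ 0 := by
    rw [← Nat.support_factorization, Finsupp.mem_support_iff]
  rw [h2]
  constructor
  · intro h h0
    rw [h0, add_zero] at h
    exact (Nat.not_odd_iff_even.2 (even_two_mul _)) h
  · intro h
    have : a.factorization p = 1 := by omega
    rw [this]
    exact ⟨_, rfl⟩

lemma sum_inv_sq_le (N : ℕ) : ∑ m ∈ Icc 1 N, 1 / ((m : ℝ)) ^ 2 ≤ 2 := by
  have h : ∀ N : ℕ, 1 ≤ N → ∑ m ∈ Icc 1 N, 1 / ((m : ℝ)) ^ 2 ≤ 2 - 1 / (N : ℝ) := by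
    intro N hN
    induction N, hN using Nat.le_induction with
    | base => norm_num
    | succ n hn ih =>
      rw [Finset.sum_Icc_succ_top (by omega)]
      have hn' : (1 : ℝ) ≤ n := by exact_mod_cast hn
      have h0 : (0 : ℝ) < n := by linarith
      have : 1 / ((n + 1 : ℕ) : ℝ) ^ 2 ≤ 1 / (n : ℝ) - 1 / ((n + 1 : ℕ) : ℝ) := by
        push_cast
        rw [div_sub_div _ _ (by positivity) (by positivity), div_le_div_iff₀ (by positivity) (by positivity)]
        nlinarith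
      linarith
  by_cases hN : 1 ≤ N
  · have := h N hN
    have h2 : (0 : ℝ) ≤ 1 / (N : ℝ) := by positivity
    linarith
  · have : Icc 1 N = ∅ := by
      apply Finset.Icc_eq_empty
      exact hN
    rw [this]; simp

/-- Main upper bound for the logarithmic mean. -/
theorem log_mean_le_prod (b : ℕ → ℝ) (hb0 : ∀ p, 0 ≤ b p) (N : ℕ) :
    ∑ n ∈ Icc 1 N, (∏ p ∈ oddPrimes n, b p) / (n : ℝ) ≤
      2 * ∏ p ∈ Nat.primesLE N, (1 + b p / p) := by
  classical
  have hdec : ∀ n : ℕ, ∃ x : ℕ × ℕ, 1 ≤ n → (x.1 ^ 2 * x.2 = n ∧ Squarefree x.2 ∧ 1 ≤ x.1 ∧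
      1 ≤ x.2 ∧ oddPrimes n = x.2.primeFactors) := by
    intro n
    by_cases hn : 1 ≤ n
    · obtain ⟨m, a, h⟩ := exists_decomp n hn
      exact ⟨(m, a), fun _ => h⟩
    · exact ⟨(0, 0), fun h => absurd h hn⟩
  choose F hF using hdec
  set g : ℕ × Finset ℕ → ℝ := fun x => (1 / ((x.1 : ℝ)) ^ 2) * ∏ p ∈ x.2, (b p / p) with hg
  have hgnn : ∀ x, 0 ≤ g x := by
    intro x
    apply mul_nonneg (by positivity)
    exact Finset.prod_nonneg fun p _ => div_nonneg (hb0 p) (by positivity)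
  have h1 : ∀ n ∈ Icc 1 N, (∏ p ∈ oddPrimes n, b p) / (n : ℝ) = g ((F n).1, (F n).2.primeFactors) := by
    intro n hn
    rw [mem_Icc] at hn
    obtain ⟨h1, h2, h3, h4, h5⟩ := hF n hn.1
    simp only [hg]
    rw [h5, Finset.prod_div_distrib]
    have h6 : (∏ p ∈ (F n).2.primeFactors, (p : ℝ)) = ((F n).2 : ℝ) := by
      have := Nat.prod_primeFactors_of_squarefree h2
      conv_rhs => rw [← this]
      push_cast
      rfl
    rw [h6]
    have h7 : (n : ℝ) = ((F n).1 : ℝ) ^ 2 * ((F n).2 : ℝ) := by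
      conv_lhs => rw [← h1]
      push_cast; ring
    rw [h7]
    have : ((F n).1 : ℝ) ≠ 0 := by positivity
    have : ((F n).2 : ℝ) ≠ 0 := by positivity
    field_simp
  rw [Finset.sum_congr rfl h1]
  have hinj : Set.InjOn (fun n => ((F n).1, (F n).2.primeFactors)) (Icc 1 N : Finset ℕ) := by
    intro n hn n' hn' h
    simp only [coe_Icc, Set.mem_Icc] at hn hn'
    obtain ⟨h1, h2, h3, h4, h5⟩ := hF n hn.1
    obtain ⟨h1', h2', h3', h4', h5'⟩ := hF n' hn'.1
    simp only [Prod.mk.injEq] at h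
    have ha : (F n).2 = (F n').2 := by
      rw [← Nat.prod_primeFactors_of_squarefree h2, ← Nat.prod_primeFactors_of_squarefree h2', h.2]
    rw [← h1, ← h1', h.1, ha]
  rw [← Finset.sum_image (f := g) hinj]
  have hsub : (Icc 1 N).image (fun n => ((F n).1, (F n).2.primeFactors)) ⊆
      Icc 1 N ×ˢ (Nat.primesLE N).powerset := by
    intro x hx
    rw [mem_image] at hx
    obtain ⟨n, hn, rfl⟩ := hx
    rw [mem_Icc] at hn
    obtain ⟨h1, h2, h3, h4, h5⟩ := hF n hn.1
    rw [mem_product, mem_Icc, mem_powerset]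
    dsimp only
    refine ⟨⟨h3, ?_⟩, ?_⟩
    · calc (F n).1 ≤ (F n).1 ^ 2 * (F n).2 := by nlinarith
        _ = n := h1
        _ ≤ N := hn.2
    · intro p hp
      rw [Nat.mem_primesLE]
      refine ⟨?_, Nat.prime_of_mem_primeFactors hp⟩
      have hle : (F n).2 ≤ n := by
        calc (F n).2 ≤ (F n).1 ^ 2 * (F n).2 :=
              Nat.le_mul_of_pos_left _ (by positivity)
          _ = n := h1
      exact ((Nat.le_of_dvd (by omega) (Nat.dvd_of_mem_primeFactors hp)).trans hle).trans hn.2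
  refine (Finset.sum_le_sum_of_subset_of_nonneg hsub fun x _ _ => hgnn x).trans ?_
  rw [Finset.sum_product]
  have h2 : ∀ m ∈ Icc 1 N, ∑ S ∈ (Nat.primesLE N).powerset, g (m, S) =
      (1 / ((m : ℝ)) ^ 2) * ∏ p ∈ Nat.primesLE N, (1 + b p / p) := by
    intro m _
    simp only [hg]
    rw [← Finset.mul_sum, Finset.prod_one_add]
  rw [Finset.sum_congr rfl h2, ← Finset.sum_mul]
  apply mul_le_mul_of_nonneg_right (sum_inv_sq_le N)
  exact Finset.prod_nonneg fun p _ => add_nonneg zero_le_one (div_nonneg (hb0 p) (by positivity))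

/-- The logarithmic mean is small when `∑ (1 - b_p)/p` is large. -/
theorem log_mean_le (b : ℕ → ℝ) (hb0 : ∀ p, 0 ≤ b p) (N : ℕ) (hN : 3 ≤ N) :
    ∑ n ∈ Icc 1 N, (∏ p ∈ oddPrimes n, b p) / (n : ℝ) ≤
      2 * Real.exp 6 * Real.log N * Real.exp (-∑ p ∈ Nat.primesLE N, (1 - b p) / p) := by
  refine (log_mean_le_prod b hb0 N).trans ?_
  have h1 : ∏ p ∈ Nat.primesLE N, (1 + b p / p) ≤ Real.exp (∑ p ∈ Nat.primesLE N, b p / p) := by
    rw [Real.exp_sum]
    apply Finset.prod_le_prod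
    · intro p _
      exact add_nonneg zero_le_one (div_nonneg (hb0 p) (by positivity))
    · intro p _
      rw [add_comm]
      exact Real.add_one_le_exp _
  have h2 : ∑ p ∈ Nat.primesLE N, b p / p =
      ∑ p ∈ Nat.primesLE N, 1 / (p : ℝ) - ∑ p ∈ Nat.primesLE N, (1 - b p) / p := by
    rw [← Finset.sum_sub_distrib]
    refine Finset.sum_congr rfl fun p _ => ?_
    ring
  have h3 := sum_inv_primes_le N hN
  have hN' : (3 : ℝ) ≤ N := by exact_mod_cast hN
  have hl : 0 < Real.log N := Real.log_pos (by linarith)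
  have h4 : Real.exp (∑ p ∈ Nat.primesLE N, b p / p) ≤
      Real.exp 6 * Real.log N * Real.exp (-∑ p ∈ Nat.primesLE N, (1 - b p) / p) := by
    have : Real.exp 6 * Real.log N * Real.exp (-∑ p ∈ Nat.primesLE N, (1 - b p) / p) =
        Real.exp (6 + Real.log (Real.log N) + (-∑ p ∈ Nat.primesLE N, (1 - b p) / p)) := by
      rw [Real.exp_add, Real.exp_add, Real.exp_log hl]
    rw [this]
    apply Real.exp_le_exp.2
    linarith
  calc 2 * ∏ p ∈ Nat.primesLE N, (1 + b p / p)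
      ≤ 2 * (Real.exp 6 * Real.log N * Real.exp (-∑ p ∈ Nat.primesLE N, (1 - b p) / p)) := by
        apply mul_le_mul_of_nonneg_left (h1.trans h4) (by norm_num)
    _ = _ := by ring

end Pool.Agent.Lib.P4a7640
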