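import Mathlib
import Pool.Agent.Lib.P4a7640.Dist

/-!
# Divergent variance: almost sure convergence along a deterministic subsequence of scales,
and simplification of the growth hypothesis
-/

open MeasureTheory ProbabilityTheory Filter Topology
open scoped ENNReal

namespace Pool.Agent.Lib.P4a7640

/-- it is enough to test the growth hypothesis with the constant `1` -/
lemma star_of_one {τ : ℕ → ℝ} (hτ : ∀ p, 0 ≤ τ p) (hτ1 : ∀ p, τ p ≤ 1)
    (h : Tendsto (fun N : ℕ => ∑ p ∈ (Finset.Icc 1 N).filter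
      (fun p : ℕ => p.Prime ∧ Real.log (Real.log (Real.log N)) < (p : ℝ)), τ p / (p : ℝ))
      atTop atTop) : Star τ := by
  intro C
  have hA : ∀ C' : ℝ, 1 ≤ C' → Tendsto (fun N : ℕ => ∑ p ∈ (Finset.Icc 1 N).filter
    (fun p : ℕ => p.Prime ∧ C' * Real.log (Real.log (Real.log N)) < (p : ℝ)), τ p / (p : ℝ))
    atTop atTop := by
    intro C' hC'
    have h1 : Tendsto (fun N : ℕ => ∑ p ∈ (Finset.Icc 1 N).filter
      (fun p : ℕ => p.Prime ∧ Real.log (Real.log (Real.log N)) < (p : ℝ)), τ p / (p : ℝ) +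
      (-(Real.log (C' + 1) + 1))) atTop atTop := tendsto_atTop_add_const_right _ _ h
    refine tendsto_atTop_mono' atTop ?_ h1
    have hl3 := tendsto_l3.eventually_ge_atTop 1
    filter_upwards [hl3] with N hN
    have hN' : 1 ≤ Real.log (Real.log (Real.log N)) := hN
    set L := Real.log (Real.log (Real.log N)) with hL
    -- split
    set m := ⌊L⌋₊ with hm
    set M := ⌊C' * L⌋₊ with hM
    have hm1 : 1 ≤ m := Nat.le_floor (by simpa using hN')
    have hmM : m ≤ M := Nat.floor_le_floor (by nlinarith)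
    have hwin : ∑ p ∈ (Finset.Icc 1 N).filter (fun p : ℕ => p.Prime ∧ L < (p:ℝ)), τ p / (p : ℝ) ≤
        ∑ p ∈ (Finset.Icc 1 N).filter (fun p : ℕ => p.Prime ∧ C' * L < (p:ℝ)), τ p / (p : ℝ) +
        ∑ n ∈ Finset.Ioc m M, (1:ℝ) / n := by
      have hsub : (Finset.Icc 1 N).filter (fun p : ℕ => p.Prime ∧ L < (p:ℝ)) ⊆
          (Finset.Icc 1 N).filter (fun p : ℕ => p.Prime ∧ C' * L < (p:ℝ)) ∪ Finset.Ioc m M := by
        intro p hp
        rw [Finset.mem_filter] at hp
        rw [Finset.mem_union, Finset.mem_filter, Finset.mem_Ioc]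
        by_cases hpC : C' * L < (p:ℝ)
        · exact Or.inl ⟨hp.1, hp.2.1, hpC⟩
        · push Not at hpC
          right
          constructor
          · exact (Nat.floor_lt (by linarith)).mpr hp.2.2
          · exact Nat.le_floor hpC
      calc _ ≤ ∑ p ∈ (Finset.Icc 1 N).filter (fun p : ℕ => p.Prime ∧ C' * L < (p:ℝ)) ∪
            Finset.Ioc m M, τ p / (p : ℝ) :=
            Finset.sum_le_sum_of_subset_of_nonneg hsub
              fun p _ _ => div_nonneg (hτ p) (Nat.cast_nonneg p)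
        _ ≤ ∑ p ∈ (Finset.Icc 1 N).filter (fun p : ℕ => p.Prime ∧ C' * L < (p:ℝ)), τ p / (p : ℝ) +
            ∑ p ∈ Finset.Ioc m M, τ p / (p : ℝ) := by
            rw [← Finset.sum_union_inter]
            have : 0 ≤ ∑ p ∈ (Finset.Icc 1 N).filter (fun p : ℕ => p.Prime ∧ C' * L < (p:ℝ)) ∩
              Finset.Ioc m M, τ p / (p : ℝ) :=
              Finset.sum_nonneg fun p _ => div_nonneg (hτ p) (Nat.cast_nonneg p)
            linarith
        _ ≤ _ := by
            apply add_le_add le_rfl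
            exact Finset.sum_le_sum fun p _ =>
              div_le_div_of_nonneg_right (hτ1 p) (Nat.cast_nonneg p)
    have hbound : ∑ n ∈ Finset.Ioc m M, (1:ℝ) / n ≤ Real.log (C' + 1) + 1 := by
      refine (sum_Ioc_inv_le hm1 hmM).trans ?_
      have hm0 : (0:ℝ) < m := by exact_mod_cast hm1
      have hM0 : (0:ℝ) < M := by exact_mod_cast (hm1.trans hmM)
      rw [← Real.log_div hM0.ne' hm0.ne']
      have h2 : (M:ℝ) / m ≤ 2 * C' := by
        rw [div_le_iff₀ hm0]
        have h3 : (M:ℝ) ≤ C' * L := Nat.floor_le (by nlinarith)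
        have h4 : L < m + 1 := Nat.lt_floor_add_one L
        have h5 : (1:ℝ) ≤ m := by exact_mod_cast hm1
        nlinarith
      have h3 : Real.log ((M:ℝ) / m) ≤ Real.log (2 * C') :=
        Real.log_le_log (div_pos hM0 hm0) h2
      have h4 : Real.log (2 * C') = Real.log 2 + Real.log C' :=
        Real.log_mul (by norm_num) (by linarith)
      have h5 : Real.log C' ≤ Real.log (C' + 1) := Real.log_le_log (by linarith) (by linarith)
      have h6 : Real.log 2 < 1 := by
        have := Real.log_two_lt_d9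
        linarith
      linarith
    linarith
  -- general constant
  refine tendsto_atTop_mono' atTop ?_ (hA (max C 1) (le_max_right _ _))
  filter_upwards [tendsto_l3.eventually_ge_atTop 0] with N hN
  have hN' : 0 ≤ Real.log (Real.log (Real.log N)) := hN
  apply Finset.sum_le_sum_of_subset_of_nonneg
  · intro p hp
    rw [Finset.mem_filter] at hp ⊢
    refine ⟨hp.1, hp.2.1, lt_of_le_of_lt ?_ hp.2.2⟩
    exact mul_le_mul_of_nonneg_right (le_max_left _ _) hN'
  · intro p _ _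
    exact div_nonneg (hτ p) (Nat.cast_nonneg p)

/-- test primes above a fixed threshold -/
noncomputable def TF (y ε : ℝ) (N : ℕ) : Finset ℕ :=
  (Finset.Icc 1 N).filter fun p => p.Prime ∧ y < p ∧ Real.log p ≤ ε * Real.log N

/-- divergence of the total variance -/
def Div (τ : ℕ → ℝ) : Prop :=
  Tendsto (fun N : ℕ => ∑ p ∈ (Finset.Icc 1 N).filter Nat.Prime, τ p / (p : ℝ)) atTop atTop

lemma tendsto_VV_TF {τ : ℕ → ℝ} (hτ : ∀ p, 0 ≤ τ p) (hτ1 : ∀ p, τ p ≤ 1) (hdiv : Div τ) {y ε : ℝ}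
    (hε : 0 < ε) (hε1 : ε < 1) : Tendsto (fun N : ℕ => VV (TF y ε N) τ) atTop atTop := by
  set N' : ℕ → ℕ := fun N => ⌊Real.exp (ε * Real.log N)⌋₊ with hN'
  have hexp : Tendsto (fun N : ℕ => Real.exp (ε * Real.log N)) atTop atTop :=
    Real.tendsto_exp_atTop.comp (tendsto_logN.const_mul_atTop hε)
  have hN'top : Tendsto N' atTop atTop := tendsto_nat_floor_atTop.comp hexp
  have h1 := tendsto_atTop_add_const_right _ (-(⌊y⌋₊ : ℝ)) (hdiv.comp hN'top)
  refine tendsto_atTop_mono' atTop ?_ h1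
  filter_upwards [eventually_ge_atTop 1] with N hN1
  show ∑ p ∈ (Finset.Icc 1 (N' N)).filter Nat.Prime, τ p / (p : ℝ) + (-(⌊y⌋₊ : ℝ)) ≤
    VV (TF y ε N) τ
  have hlogN : 0 ≤ Real.log N := Real.log_nonneg (by exact_mod_cast hN1)
  have hsub : (Finset.Icc 1 (N' N)).filter Nat.Prime ⊆ TF y ε N ∪ Finset.Icc 1 ⌊y⌋₊ := by
    intro p hp
    rw [Finset.mem_filter, Finset.mem_Icc] at hp
    obtain ⟨⟨hp1, hp2⟩, hpp⟩ := hp
    rw [Finset.mem_union]
    by_cases hpy : (p:ℝ) ≤ y
    · right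
      rw [Finset.mem_Icc]
      exact ⟨hp1, Nat.le_floor hpy⟩
    · left
      push Not at hpy
      have hp0 : (0:ℝ) < p := by exact_mod_cast hpp.pos
      have hpe : (p:ℝ) ≤ Real.exp (ε * Real.log N) := by
        have h9 : (p:ℝ) ≤ (N' N : ℕ) := by exact_mod_cast hp2
        exact h9.trans (Nat.floor_le (Real.exp_pos _).le)
      have hlp : Real.log p ≤ ε * Real.log N := by
        rw [← Real.log_exp (ε * Real.log N)]
        exact Real.log_le_log hp0 hpe
      unfold TF
      rw [Finset.mem_filter, Finset.mem_Icc]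
      refine ⟨⟨hp1, ?_⟩, hpp, hpy, hlp⟩
      have hN0 : (0:ℝ) < N := by exact_mod_cast hN1
      have h10 : (p:ℝ) ≤ N := by
        calc (p:ℝ) ≤ Real.exp (ε * Real.log N) := hpe
          _ ≤ Real.exp (Real.log N) := Real.exp_le_exp.mpr (by nlinarith)
          _ = N := Real.exp_log hN0
      exact_mod_cast h10
  have h2 : ∑ p ∈ (Finset.Icc 1 (N' N)).filter Nat.Prime, τ p / (p : ℝ) ≤
      VV (TF y ε N) τ + ∑ p ∈ Finset.Icc 1 ⌊y⌋₊, τ p / (p : ℝ) := by
    calc _ ≤ ∑ p ∈ TF y ε N ∪ Finset.Icc 1 ⌊y⌋₊, τ p / (p : ℝ) :=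
          Finset.sum_le_sum_of_subset_of_nonneg hsub
            fun p _ _ => div_nonneg (hτ p) (Nat.cast_nonneg p)
      _ ≤ ∑ p ∈ TF y ε N, τ p / (p : ℝ) + ∑ p ∈ Finset.Icc 1 ⌊y⌋₊, τ p / (p : ℝ) := by
          rw [← Finset.sum_union_inter]
          have : 0 ≤ ∑ p ∈ TF y ε N ∩ Finset.Icc 1 ⌊y⌋₊, τ p / (p : ℝ) :=
            Finset.sum_nonneg fun p _ => div_nonneg (hτ p) (Nat.cast_nonneg p)
          linarith
      _ = _ := rfl
  have h3 : ∑ p ∈ Finset.Icc 1 ⌊y⌋₊, τ p / (p : ℝ) ≤ ⌊y⌋₊ := by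
    calc ∑ p ∈ Finset.Icc 1 ⌊y⌋₊, τ p / (p : ℝ) ≤ ∑ p ∈ Finset.Icc 1 ⌊y⌋₊, (1:ℝ) := by
          refine Finset.sum_le_sum fun p hp => ?_
          rw [Finset.mem_Icc] at hp
          have hp0 : (1:ℝ) ≤ p := by exact_mod_cast hp.1
          rw [div_le_one (by linarith)]
          exact (hτ1 p).trans hp0
      _ = ⌊y⌋₊ := by simp
  linarith

/-- uniform smallness of the conditional means, fixed threshold -/
lemma eventually_AVL_le_fixed {θ : ℕ → ℝ} (hθ0 : ∀ p, 0 ≤ θ p) (hθ1 : ∀ p, θ p ≤ 1)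
    (hdiv : Div fun p => min (θ p) (1 - θ p)) {w : ℕ → ℝ} (hw : ∀ n, |w n| ≤ 1)
    {H : Finset ℕ} {hm : ℕ} (hne : H.Nonempty) (hH : ∀ h ∈ H, h ≤ hm) {y η : ℝ}
    (hy : 2 * hm + 1 ≤ y) (hη : 0 < η) :
    ∀ᶠ N : ℕ in atTop, ∀ x : SS, |AVL θ (PL hm N y).toList (FF w H N) x| ≤ η := by
  set τ : ℕ → ℝ := fun p => min (θ p) (1 - θ p) with hτd
  have hτ : ∀ p, 0 ≤ τ p := fun p => le_min (hθ0 p) (by linarith [hθ1 p])
  have hτ1 : ∀ p, τ p ≤ 1 := fun p => (min_le_left _ _).trans (hθ1 p)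
  obtain ⟨h₀, hh₀⟩ := hne
  set ε := min (η / 16) (1/2) with hε
  have hε0 : 0 < ε := lt_min (by positivity) (by norm_num)
  have hε1 : ε < 1 := lt_of_le_of_lt (min_le_right _ _) (by norm_num)
  have hV := tendsto_VV_TF (y := y) hτ hτ1 hdiv hε0 hε1
  have hlim : Tendsto (fun N : ℕ => 8 * ε + 4 * (CH h₀ + 1) / Real.log N +
      20 * (1 + CH h₀ / Real.log N) / VV (TF y ε N) τ +
      Real.exp (-VV (TF y ε N) τ) * (1 + 1 / Real.log N)) atTop (𝓝 (8 * ε)) := by
    have h1 : Tendsto (fun N : ℕ => 4 * (CH h₀ + 1) / Real.log N) atTop (𝓝 0) :=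
      tendsto_logN.const_div_atTop _
    have h2 : Tendsto (fun N : ℕ => 1 + CH h₀ / Real.log N) atTop (𝓝 1) := by
      have := (tendsto_logN.const_div_atTop (CH h₀)).const_add 1
      simpa using this
    have h3 : Tendsto (fun N : ℕ => 20 * (1 + CH h₀ / Real.log N) / VV (TF y ε N) τ)
        atTop (𝓝 0) := (h2.const_mul 20).div_atTop hV
    have h4 : Tendsto (fun N : ℕ => Real.exp (-VV (TF y ε N) τ) * (1 + 1 / Real.log N))
        atTop (𝓝 0) := by
      have h5 : Tendsto (fun N : ℕ => Real.exp (-VV (TF y ε N) τ)) atTop (𝓝 0) :=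
        Real.tendsto_exp_neg_atTop_nhds_zero.comp hV
      have h6 : Tendsto (fun N : ℕ => 1 + 1 / Real.log N) atTop (𝓝 1) := by
        have := (tendsto_logN.const_div_atTop 1).const_add 1
        simpa using this
      simpa using h5.mul h6
    have := ((h1.const_add (8 * ε)).add h3).add h4
    simpa using this
  have hlt : 8 * ε < η := by
    have : ε ≤ η / 16 := min_le_left _ _
    linarith
  filter_upwards [hlim.eventually (eventually_le_nhds hlt), eventually_ge_atTop 2,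
    hV.eventually_gt_atTop 0] with N h1 h2 h3 x
  refine le_trans ?_ h1
  refine (AVL_FF_le hθ0 hθ1 hw h2 hh₀ hH (s := TF y ε N) ?_ x).trans ?_
  · intro p hp
    unfold TF at hp
    rw [Finset.mem_filter, Finset.mem_Icc] at hp
    obtain ⟨⟨hp1, hp2⟩, hpp, hp3, hp4⟩ := hp
    constructor
    · unfold PL
      rw [Finset.mem_filter, Finset.mem_Icc]
      exact ⟨⟨hp1, by omega⟩, hpp, hp3⟩
    · have h5 : (hm:ℝ) < p := by
        have : (0:ℝ) ≤ hm := Nat.cast_nonneg hm
        linarith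
      exact_mod_cast h5
  · apply exp_avg hτ hτ1 h2 h3
    intro p hp
    unfold TF at hp
    rw [Finset.mem_filter, Finset.mem_Icc] at hp
    obtain ⟨⟨hp1, hp2⟩, hpp, hp3, hp4⟩ := hp
    have h5 : 2 * (hm:ℝ) + 1 < p := by linarith
    have h6 : 2 * hm + 1 < p := by exact_mod_cast h5
    have h7 := hH h₀ hh₀
    exact ⟨hpp, by omega, by omega, hp2, hp4⟩

/-- thresholds used at stage `k` -/
noncomputable def YK (k : ℕ) : ℝ := 64 * ((k:ℝ) + 1) ^ 5

/-- quality of the scale `N` at stage `k` -/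
def GoodSc (θ : ℕ → ℝ) (g : ℕ → ℤˣ) (k N : ℕ) : Prop :=
  2 ≤ N ∧ CH k ≤ Real.log N ∧ ∀ H ∈ (Finset.range (k + 1)).powerset, H.Nonempty →
    ∀ x : SS, |AVL θ (PL k N (YK k)).toList (FF (prodSeq g H) H N) x| ≤ 1 / ((k:ℝ) + 1)

lemma eventually_GoodSc {θ : ℕ → ℝ} (hθ0 : ∀ p, 0 ≤ θ p) (hθ1 : ∀ p, θ p ≤ 1)
    (hdiv : Div fun p => min (θ p) (1 - θ p)) (g : ℕ → ℤˣ) (k : ℕ) :
    ∀ᶠ N in atTop, GoodSc θ g k N := by
  have h1 : ∀ᶠ N : ℕ in atTop, ∀ H ∈ (Finset.range (k + 1)).powerset, H.Nonempty →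
      ∀ x : SS, |AVL θ (PL k N (YK k)).toList (FF (prodSeq g H) H N) x| ≤ 1 / ((k:ℝ) + 1) := by
    rw [eventually_all_finset]
    intro H hH
    by_cases hne : H.Nonempty
    · have h2 := eventually_AVL_le_fixed hθ0 hθ1 hdiv (w := prodSeq g H)
        (fun n => (abs_prodSeq g H n).le) hne (hm := k) (fun h hh => by
          have := Finset.mem_range.mp ((Finset.mem_powerset.mp hH) hh)
          omega) (y := YK k) (η := 1 / ((k:ℝ) + 1)) (by
          unfold YK
          have hk : (0:ℝ) ≤ k := Nat.cast_nonneg k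
          have h3 : (1:ℝ) ≤ ((k:ℝ) + 1) ^ 4 := one_le_pow₀ (by linarith)
          have h4 : ((k:ℝ) + 1) ^ 5 = ((k:ℝ) + 1) ^ 4 * ((k:ℝ) + 1) := by ring
          rw [h4]
          nlinarith) (by positivity)
      filter_upwards [h2] with N hN _ using hN
    · exact Eventually.of_forall fun N h => absurd h hne
  filter_upwards [h1, eventually_ge_atTop 2, tendsto_logN.eventually_ge_atTop (CH k)]
    with N h2 h3 h4
  exact ⟨h3, h4, h2⟩

variable {ν : ℕ → Measure ℤˣ} [∀ p, IsProbabilityMeasure (ν p)]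

lemma ae_sub {θ : ℕ → ℝ} (hθ : ∀ p, θ p = (ν p).real {-1}) {g : ℕ → ℤˣ} {NN : ℕ → ℕ}
    (hgood : ∀ k, GoodSc θ g k (NN k)) :
    ∀ᵐ x ∂(Measure.infinitePi ν), ∀ H : Finset ℕ, H.Nonempty →
      Tendsto (fun k => LA (prodSeq (fun n => g n * rnd x n) H) (NN k)) atTop (𝓝 0) := by
  rw [ae_all_iff]
  intro H
  by_cases hne : H.Nonempty
  swap
  · exact Eventually.of_forall fun x hx => absurd hx hne
  have hc0 : (0:ℝ) < H.card := by exact_mod_cast hne.card_pos
  set hm := H.sup id with hmd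
  have hH : ∀ h ∈ H, h ≤ hm := fun h hh => Finset.le_sup (f := id) hh
  set s : ℕ → Set SS := fun k => {x | 1 / ((k:ℝ) + 1) ≤ |FF (prodSeq g H) H (NN k) x -
    AVL θ (PL k (NN k) (YK k)).toList (FF (prodSeq g H) H (NN k)) x|} with hs
  have hbound : ∀ᶠ k : ℕ in atTop, ‖(Measure.infinitePi ν).real (s k)‖ ≤
      2 * Real.exp (-1) ^ k := by
    filter_upwards [eventually_ge_atTop hm] with k hk
    rw [Real.norm_of_nonneg measureReal_nonneg]
    obtain ⟨h2, hlog, _⟩ := hgood k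
    have hk0 : (0:ℝ) ≤ k := Nat.cast_nonneg k
    have hp4 : (1:ℝ) ≤ ((k:ℝ) + 1) ^ 4 := one_le_pow₀ (by linarith)
    have hp5 : ((k:ℝ) + 1) ^ 5 = ((k:ℝ) + 1) ^ 4 * ((k:ℝ) + 1) := by ring
    have h5 := conc hθ (w := prodSeq g H) (fun n => (abs_prodSeq g H n).le) hne h2
      (fun h hh => (hH h hh).trans hk) (y := YK k) (ε := 1 / ((k:ℝ) + 1))
      (by unfold YK; rw [hp5]; nlinarith) (by unfold YK; rw [hp5]; nlinarith) hlog (by positivity)
    refine h5.trans ?_
    apply mul_le_mul_of_nonneg_left _ (by norm_num)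
    rw [← Real.exp_nat_mul]
    apply Real.exp_le_exp.mpr
    have hcard : (H.card : ℝ) ≤ k + 1 := by
      have h6 : H ⊆ Finset.range (k + 1) := fun h hh => by
        rw [Finset.mem_range]
        have := hH h hh
        omega
      have := Finset.card_le_card h6
      rw [Finset.card_range] at this
      exact_mod_cast this
    have h7 : (k:ℝ) ≤ (1 / ((k:ℝ) + 1)) ^ 2 * YK k / (64 * (H.card:ℝ) ^ 2) := by
      unfold YK
      rw [le_div_iff₀ (by positivity)]
      have h8 : (1 / ((k:ℝ) + 1)) ^ 2 * (64 * ((k:ℝ) + 1) ^ 5) = 64 * ((k:ℝ) + 1) ^ 3 := by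
        field_simp
      rw [h8]
      have h9 : (H.card:ℝ) ^ 2 ≤ ((k:ℝ) + 1) ^ 2 := pow_le_pow_left₀ hc0.le hcard 2
      have h10 : (k:ℝ) * (64 * (H.card:ℝ) ^ 2) ≤ ((k:ℝ) + 1) * (64 * ((k:ℝ) + 1) ^ 2) := by
        apply mul_le_mul (by linarith) (by linarith) (by positivity) (by positivity)
      calc _ ≤ _ := h10
        _ = _ := by ring
    linarith
  have hsum : Summable fun k => (Measure.infinitePi ν).real (s k) := by
    refine Summable.of_norm_bounded_eventually_nat ((summable_geometric_of_lt_one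
      (Real.exp_pos _).le ?_).mul_left 2) hbound
    rw [Real.exp_lt_one_iff]
    norm_num
  have hne_top : ∑' k, (Measure.infinitePi ν) (s k) ≠ ∞ := by
    have h1 := hsum.tsum_ofReal_ne_top
    have h2 : (fun k => ENNReal.ofReal ((Measure.infinitePi ν).real (s k))) =
        fun k => (Measure.infinitePi ν) (s k) := by
      funext k
      exact ofReal_measureReal
    rwa [h2] at h1
  have hBC := ae_eventually_notMem hne_top
  filter_upwards [hBC] with x hx _
  have hlim : Tendsto (fun k : ℕ => 2 * (1 / ((k:ℝ) + 1))) atTop (𝓝 0) := by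
    simpa using tendsto_one_div_add_atTop_nhds_zero_nat.const_mul (2:ℝ)
  refine squeeze_zero_norm' ?_ hlim
  filter_upwards [hx, eventually_ge_atTop hm] with k h1 hk
  rw [LA_prodSeq_mul, Real.norm_eq_abs]
  have h3 : |FF (prodSeq g H) H (NN k) x -
      AVL θ (PL k (NN k) (YK k)).toList (FF (prodSeq g H) H (NN k)) x| < 1 / ((k:ℝ) + 1) := by
    by_contra hcon
    push Not at hcon
    exact h1 hcon
  have h4 : |AVL θ (PL k (NN k) (YK k)).toList (FF (prodSeq g H) H (NN k)) x| ≤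
      1 / ((k:ℝ) + 1) := by
    apply (hgood k).2.2 H _ hne
    rw [Finset.mem_powerset]
    intro h hh
    rw [Finset.mem_range]
    have := hH h hh
    omega
  calc |FF (prodSeq g H) H (NN k) x| = |(FF (prodSeq g H) H (NN k) x -
        AVL θ (PL k (NN k) (YK k)).toList (FF (prodSeq g H) H (NN k)) x) +
        AVL θ (PL k (NN k) (YK k)).toList (FF (prodSeq g H) H (NN k)) x| := by
        rw [sub_add_cancel]
    _ ≤ _ := abs_add_le _ _
    _ ≤ 2 * (1 / ((k:ℝ) + 1)) := by linarith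

/-- divergent variance: convergence along a deterministic sequence of scales -/
lemma ae_sub_of_indep {Ω : Type*} [MeasurableSpace Ω] {P : Measure Ω} [IsProbabilityMeasure P]
    {ε : ℕ → Ω → ℤˣ} (hε : ∀ p, Measurable (ε p)) (hind : iIndepFun ε P)
    (hdiv : Div fun p => min (P.real {ω | ε p ω = -1}) (P.real {ω | ε p ω = 1}))
    (g : ℕ → ℤˣ) :
    ∃ NN : ℕ → ℕ, StrictMono NN ∧ ∀ᵐ ω ∂P, ∀ H : Finset ℕ, H.Nonempty →
      Tendsto (fun k => LA (prodSeq (fun n => g n * rnd (fun p => ε p ω) n) H) (NN k))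
        atTop (𝓝 0) := by
  set ν : ℕ → Measure ℤˣ := fun p => P.map (ε p) with hν
  have : ∀ p, IsProbabilityMeasure (ν p) := fun p =>
    Measure.isProbabilityMeasure_map (hε p).aemeasurable
  have hmap := (iIndepFun_iff_map_fun_eq_infinitePi_map (fun p => hε p)).mp hind
  have hreal : ∀ p, (ν p).real {-1} = P.real {ω | ε p ω = -1} := by
    intro p
    rw [hν]
    rw [map_measureReal_apply (hε p) (measurableSet_singleton _)]
    rfl
  have hone : ∀ p, 1 - (ν p).real {-1} = P.real {ω | ε p ω = 1} := by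
    intro p
    have hms : MeasurableSet {ω | ε p ω = -1} := hε p (measurableSet_singleton _)
    rw [hreal, ← probReal_compl_eq_one_sub hms]
    congr 1
    ext ω
    simp only [Set.mem_compl_iff, Set.mem_ofPred_eq]
    rcases Int.units_eq_one_or (ε p ω) with h | h
    · rw [h]
      simp
    · rw [h]
      simp
  have hdiv' : Div fun p => min ((ν p).real {-1}) (1 - (ν p).real {-1}) := by
    have : (fun p => min ((ν p).real {-1}) (1 - (ν p).real {-1})) =
        fun p => min (P.real {ω | ε p ω = -1}) (P.real {ω | ε p ω = 1}) := by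
      funext p
      rw [hone, hreal]
    rw [this]
    exact hdiv
  have hev := fun k => eventually_atTop.mp (eventually_GoodSc (θ := fun p => (ν p).real {-1})
    (fun p => measureReal_nonneg) (fun p => measureReal_le_one) hdiv' g k)
  choose M hM using hev
  set NN : ℕ → ℕ := fun k => ∑ j ∈ Finset.range (k + 1), (M j + 1) with hNN
  have hmono : StrictMono NN := by
    apply strictMono_nat_of_lt_succ
    intro k
    rw [hNN]
    show ∑ j ∈ Finset.range (k + 1), (M j + 1) < ∑ j ∈ Finset.range (k + 1 + 1), (M j + 1)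
    rw [Finset.sum_range_succ _ (k + 1)]
    omega
  refine ⟨NN, hmono, ?_⟩
  have hgood : ∀ k, GoodSc (fun p => (ν p).real {-1}) g k (NN k) := by
    intro k
    apply hM k
    rw [hNN]
    show M k ≤ ∑ j ∈ Finset.range (k + 1), (M j + 1)
    rw [Finset.sum_range_succ]
    omega
  have h1 := ae_sub (ν := ν) (θ := fun p => (ν p).real {-1}) (fun p => rfl) hgood
  rw [← hmap] at h1
  exact ae_of_ae_map (measurable_pi_lambda _ hε).aemeasurable h1

end Pool.Agent.Lib.P4a7640
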