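import Mathlib
import Pool.Agent.Lib.P4a7640.Sub

/-!
# Divergent variance: convergence along a set of scales of full upper logarithmic density
-/

open MeasureTheory ProbabilityTheory Filter Topology
open scoped ENNReal

namespace Pool.Agent.Lib.P4a7640

/-- the scale `N` is bad at stage `k` for the signs `x` -/
def Bd (g : ℕ → ℤˣ) (k N : ℕ) (x : SS) : Prop :=
  ∃ H ∈ (Finset.range (k + 1)).powerset, H.Nonempty ∧ 2 / ((k:ℝ) + 1) < |FF (prodSeq g H) H N x|

lemma measurableSet_Bd (g : ℕ → ℤˣ) (k N : ℕ) : MeasurableSet {x : SS | Bd g k N x} := by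
  have h1 : {x : SS | Bd g k N x} = ⋃ H ∈ (Finset.range (k + 1)).powerset,
      {x : SS | H.Nonempty ∧ 2 / ((k:ℝ) + 1) < |FF (prodSeq g H) H N x|} := by
    ext x
    simp only [Bd, Set.mem_iUnion, Set.mem_ofPred_eq, exists_prop]
  rw [h1]
  refine Finset.measurableSet_biUnion _ fun H _ => ?_
  by_cases hne : H.Nonempty
  · have h2 : {x : SS | H.Nonempty ∧ 2 / ((k:ℝ) + 1) < |FF (prodSeq g H) H N x|} =
        {x : SS | 2 / ((k:ℝ) + 1) < |FF (prodSeq g H) H N x|} := by
      ext x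
      simp [hne]
    rw [h2]
    exact measurableSet_lt measurable_const (measurable_FF _ _ _).abs
  · have h2 : {x : SS | H.Nonempty ∧ 2 / ((k:ℝ) + 1) < |FF (prodSeq g H) H N x|} = ∅ := by
      ext x
      simp [hne]
    rw [h2]
    exact MeasurableSet.empty

variable {ν : ℕ → Measure ℤˣ} [∀ p, IsProbabilityMeasure (ν p)]

lemma prob_bad {θ : ℕ → ℝ} (hθ : ∀ p, θ p = (ν p).real {-1}) {g : ℕ → ℤˣ} {k N : ℕ}
    (hgood : GoodSc θ g k N) :
    (Measure.infinitePi ν).real {x | Bd g k N x} ≤ 4 * (2 * Real.exp (-1)) ^ k := by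
  obtain ⟨h2, hlog, hAV⟩ := hgood
  set s := (Finset.range (k + 1)).powerset with hs
  set E : Finset ℕ → Set SS := fun H => {x | H.Nonempty ∧ 1 / ((k:ℝ) + 1) ≤
    |FF (prodSeq g H) H N x - AVL θ (PL k N (YK k)).toList (FF (prodSeq g H) H N) x|} with hE
  have hsub : {x | Bd g k N x} ⊆ ⋃ H ∈ s, E H := by
    intro x hx
    obtain ⟨H, hH, hne, hgt⟩ := hx
    simp only [Set.mem_iUnion, exists_prop]
    refine ⟨H, hH, hne, ?_⟩
    have h3 := hAV H hH hne x
    have h4 : |FF (prodSeq g H) H N x| ≤ |FF (prodSeq g H) H N x -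
        AVL θ (PL k N (YK k)).toList (FF (prodSeq g H) H N) x| +
        |AVL θ (PL k N (YK k)).toList (FF (prodSeq g H) H N) x| := by
      calc |FF (prodSeq g H) H N x| = |(FF (prodSeq g H) H N x -
        AVL θ (PL k N (YK k)).toList (FF (prodSeq g H) H N) x) +
        AVL θ (PL k N (YK k)).toList (FF (prodSeq g H) H N) x| := by rw [sub_add_cancel]
        _ ≤ _ := abs_add_le _ _
    have h5 : 2 / ((k:ℝ) + 1) = 1 / ((k:ℝ) + 1) + 1 / ((k:ℝ) + 1) := by ring
    linarith
  have hk0 : (0:ℝ) ≤ k := Nat.cast_nonneg k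
  have hp4 : (1:ℝ) ≤ ((k:ℝ) + 1) ^ 4 := one_le_pow₀ (by linarith)
  have hp5 : ((k:ℝ) + 1) ^ 5 = ((k:ℝ) + 1) ^ 4 * ((k:ℝ) + 1) := by ring
  have hone : ∀ H ∈ s, (Measure.infinitePi ν).real (E H) ≤ 2 * Real.exp (-1) ^ (k + 1) := by
    intro H hH
    by_cases hne : H.Nonempty
    · have hHk : ∀ h ∈ H, h ≤ k := fun h hh => by
        have := Finset.mem_range.mp ((Finset.mem_powerset.mp hH) hh)
        omega
      have hc0 : (0:ℝ) < H.card := by exact_mod_cast hne.card_pos
      have h5 := conc hθ (w := prodSeq g H) (fun n => (abs_prodSeq g H n).le) hne h2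
        hHk (y := YK k) (ε := 1 / ((k:ℝ) + 1))
        (by unfold YK; rw [hp5]; nlinarith) (by unfold YK; rw [hp5]; nlinarith) hlog (by positivity)
      have h6 : E H = {x | 1 / ((k:ℝ) + 1) ≤ |FF (prodSeq g H) H N x -
          AVL θ (PL k N (YK k)).toList (FF (prodSeq g H) H N) x|} := by
        ext x
        simp only [hE, Set.mem_ofPred_eq, hne, true_and]
      rw [h6]
      refine h5.trans ?_
      apply mul_le_mul_of_nonneg_left _ (by norm_num)
      rw [← Real.exp_nat_mul]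
      apply Real.exp_le_exp.mpr
      have hcard : (H.card : ℝ) ≤ k + 1 := by
        have := Finset.card_le_card (Finset.mem_powerset.mp hH)
        rw [Finset.card_range] at this
        exact_mod_cast this
      have h7 : (k:ℝ) + 1 ≤ (1 / ((k:ℝ) + 1)) ^ 2 * YK k / (64 * (H.card:ℝ) ^ 2) := by
        unfold YK
        rw [le_div_iff₀ (by positivity)]
        have h8 : (1 / ((k:ℝ) + 1)) ^ 2 * (64 * ((k:ℝ) + 1) ^ 5) = 64 * ((k:ℝ) + 1) ^ 3 := by
          field_simp
        rw [h8]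
        have h9 : (H.card:ℝ) ^ 2 ≤ ((k:ℝ) + 1) ^ 2 := pow_le_pow_left₀ hc0.le hcard 2
        calc ((k:ℝ) + 1) * (64 * (H.card:ℝ) ^ 2) ≤ ((k:ℝ) + 1) * (64 * ((k:ℝ) + 1) ^ 2) := by
              gcongr
          _ = _ := by ring
      push_cast
      linarith
    · have h6 : E H = ∅ := by
        ext x
        simp [hE, hne]
      rw [h6, measureReal_empty]
      positivity
  calc (Measure.infinitePi ν).real {x | Bd g k N x}
      ≤ (Measure.infinitePi ν).real (⋃ H ∈ s, E H) := measureReal_mono hsub (measure_ne_top _ _)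
    _ ≤ ∑ H ∈ s, (Measure.infinitePi ν).real (E H) := measureReal_biUnion_finset_le _ _
    _ ≤ ∑ H ∈ s, 2 * Real.exp (-1) ^ (k + 1) := Finset.sum_le_sum hone
    _ = 2 ^ (k + 1) * (2 * Real.exp (-1) ^ (k + 1)) := by
        rw [Finset.sum_const, nsmul_eq_mul, hs, Finset.card_powerset, Finset.card_range]
        push_cast
        rfl
    _ = 4 * (2 * Real.exp (-1)) ^ k * Real.exp (-1) := by
        rw [mul_pow]
        ring
    _ ≤ 4 * (2 * Real.exp (-1)) ^ k * 1 := by
        apply mul_le_mul_of_nonneg_left _ (by positivity)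
        exact Real.exp_le_one_iff.mpr (by norm_num)
    _ = _ := mul_one _

lemma ratio_lt_one : 2 * Real.exp (-1) < 1 := by
  rw [Real.exp_neg]
  have h : (2:ℝ) < Real.exp 1 := by
    have := Real.exp_one_gt_d9
    linarith
  have h0 : 0 < Real.exp 1 := Real.exp_pos 1
  rw [← div_eq_mul_inv, div_lt_one h0]
  exact h

/-- nonnegative functions with summable integrals tend to zero almost everywhere -/
lemma ae_tendsto_of_summable {Ω : Type*} [MeasurableSpace Ω] {μ : Measure Ω} [IsFiniteMeasure μ]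
    {f : ℕ → Ω → ℝ} (hf : ∀ k, Measurable (f k)) (hf0 : ∀ k x, 0 ≤ f k x) {M : ℕ → ℝ}
    (hM : ∀ k x, f k x ≤ M k) {b : ℕ → ℝ} (hb : Summable b) (h : ∀ k, ∫ x, f k x ∂μ ≤ b k) :
    ∀ᵐ x ∂μ, Tendsto (fun k => f k x) atTop (𝓝 0) := by
  set F : ℕ → Ω → ENNReal := fun k x => ENNReal.ofReal (f k x) with hF
  have hFm : ∀ k, Measurable (F k) := fun k => (hf _).ennreal_ofReal
  have hb0 : ∀ k, 0 ≤ b k := fun k => (integral_nonneg (hf0 k)).trans (h k)
  have hint : ∀ k, ∫⁻ x, F k x ∂μ ≤ ENNReal.ofReal (b k) := by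
    intro k
    have h1 : Integrable (f k) μ := by
      refine Integrable.of_bound (hf _).aestronglyMeasurable (M k) ?_
      refine Eventually.of_forall fun x => ?_
      rw [Real.norm_eq_abs, abs_of_nonneg (hf0 k x)]
      exact hM k x
    have h2 := ofReal_integral_eq_lintegral_ofReal h1 (Eventually.of_forall fun x => hf0 k x)
    rw [hF]
    rw [← h2]
    exact ENNReal.ofReal_le_ofReal (h k)
  have hsum : ∑' k, ∫⁻ x, F k x ∂μ ≠ ⊤ := by
    refine ne_top_of_le_ne_top ?_ (ENNReal.tsum_le_tsum hint)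
    rw [← ENNReal.ofReal_tsum_of_nonneg hb0 hb]
    exact ENNReal.ofReal_ne_top
  rw [← lintegral_tsum (fun k => (hFm k).aemeasurable)] at hsum
  have hae := ae_lt_top (Measurable.tsum hFm) hsum
  filter_upwards [hae] with x hx
  have h1 := ENNReal.tendsto_atTop_zero_of_tsum_ne_top hx.ne
  have h3 := (ENNReal.tendsto_toReal ENNReal.zero_ne_top).comp h1
  simp only [ENNReal.toReal_zero] at h3
  refine h3.congr fun k => ?_
  simp only [hF, Function.comp_apply]
  exact ENNReal.toReal_ofReal (hf0 k x)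

open Classical in
/-- the logarithmic frequency of bad scales at stage `k` -/
noncomputable def DK (g : ℕ → ℤˣ) (k M X : ℕ) (x : SS) : ℝ :=
  (∑ N ∈ (Finset.Icc 1 X).filter (fun N => M ≤ N), (if Bd g k N x then (1:ℝ) / N else 0)) /
    Real.log X

open Classical in
lemma DK_eq (g : ℕ → ℤˣ) (k M X : ℕ) (x : SS) : DK g k M X x =
    (∑ N ∈ (Finset.Icc 1 X).filter (fun N => M ≤ N),
      Set.indicator {x | Bd g k N x} (fun _ => (1:ℝ) / N) x) / Real.log X := by
  unfold DK
  congr 1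

lemma measurable_DK (g : ℕ → ℤˣ) (k M X : ℕ) : Measurable (DK g k M X) := by
  have h1 : DK g k M X = fun x => (∑ N ∈ (Finset.Icc 1 X).filter (fun N => M ≤ N),
      Set.indicator {x | Bd g k N x} (fun _ => (1:ℝ) / N) x) / Real.log X :=
    funext (DK_eq g k M X)
  rw [h1]
  refine Measurable.div_const (Finset.measurable_sum _ fun N _ => ?_) _
  exact measurable_const.indicator (measurableSet_Bd g k N)

lemma DK_nonneg (g : ℕ → ℤˣ) (k M X : ℕ) (x : SS) : 0 ≤ DK g k M X x := by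
  unfold DK
  refine div_nonneg (Finset.sum_nonneg fun N _ => ?_) ?_
  · split_ifs <;> positivity
  · exact Real.log_natCast_nonneg X

lemma DK_le (g : ℕ → ℤˣ) (k M X : ℕ) (x : SS) : DK g k M X x ≤ (1 + Real.log X) / Real.log X := by
  unfold DK
  refine div_le_div_of_nonneg_right ?_ (Real.log_natCast_nonneg X)
  refine le_trans ?_ (sum_inv_le X)
  refine (Finset.sum_le_sum (g := fun N : ℕ => (1:ℝ) / N) fun N _ => ?_).trans ?_
  · split_ifs
    · exact le_rfl
    · positivity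
  · exact Finset.sum_le_sum_of_subset_of_nonneg (Finset.filter_subset _ _) fun _ _ _ => by positivity

lemma integral_DK_le {θ : ℕ → ℝ} (hθ : ∀ p, θ p = (ν p).real {-1}) {g : ℕ → ℤˣ} {k M X : ℕ}
    (hM : ∀ N, M ≤ N → GoodSc θ g k N) (hX : 1 ≤ Real.log X) :
    ∫ x, DK g k M X x ∂(Measure.infinitePi ν) ≤ 8 * (2 * Real.exp (-1)) ^ k := by
  have hl0 : 0 < Real.log X := by linarith
  have h1 : ∫ x, DK g k M X x ∂(Measure.infinitePi ν) =
      (∑ N ∈ (Finset.Icc 1 X).filter (fun N => M ≤ N),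
        (1:ℝ) / N * (Measure.infinitePi ν).real {x | Bd g k N x}) / Real.log X := by
    simp_rw [DK_eq]
    rw [integral_div]
    congr 1
    rw [integral_finsetSum]
    · refine Finset.sum_congr rfl fun N _ => ?_
      rw [integral_indicator (measurableSet_Bd g k N), setIntegral_const, smul_eq_mul, mul_comm]
    · intro N _
      exact (integrable_const _).indicator (measurableSet_Bd g k N)
  rw [h1, div_le_iff₀ hl0]
  calc ∑ N ∈ (Finset.Icc 1 X).filter (fun N => M ≤ N),
        (1:ℝ) / N * (Measure.infinitePi ν).real {x | Bd g k N x}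
      ≤ ∑ N ∈ (Finset.Icc 1 X).filter (fun N => M ≤ N),
        (1:ℝ) / N * (4 * (2 * Real.exp (-1)) ^ k) := by
        refine Finset.sum_le_sum fun N hN => ?_
        rw [Finset.mem_filter] at hN
        exact mul_le_mul_of_nonneg_left (prob_bad hθ (hM N hN.2)) (by positivity)
    _ ≤ ∑ N ∈ Finset.Icc 1 X, (1:ℝ) / N * (4 * (2 * Real.exp (-1)) ^ k) :=
        Finset.sum_le_sum_of_subset_of_nonneg (Finset.filter_subset _ _)
          fun _ _ _ => by positivity
    _ = (∑ N ∈ Finset.Icc 1 X, (1:ℝ) / N) * (4 * (2 * Real.exp (-1)) ^ k) := by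
        rw [Finset.sum_mul]
    _ ≤ (1 + Real.log X) * (4 * (2 * Real.exp (-1)) ^ k) :=
        mul_le_mul_of_nonneg_right (sum_inv_le X) (by positivity)
    _ ≤ (2 * Real.log X) * (4 * (2 * Real.exp (-1)) ^ k) :=
        mul_le_mul_of_nonneg_right (by linarith) (by positivity)
    _ = _ := by ring

lemma sum_union_le {f : ℕ → ℝ} (hf : ∀ n, 0 ≤ f n) [DecidableEq ℕ] (s t : Finset ℕ) :
    ∑ n ∈ s ∪ t, f n ≤ ∑ n ∈ s, f n + ∑ n ∈ t, f n := by
  have h := Finset.sum_union_inter (s₁ := s) (s₂ := t) (f := f)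
  have h2 : 0 ≤ ∑ n ∈ s ∩ t, f n := Finset.sum_nonneg fun n _ => hf n
  linarith

/-- the set of good scales -/
def SX (g : ℕ → ℤˣ) (M X : ℕ → ℕ) (x : SS) : Set ℕ :=
  {N | ∃ k, X k < N ∧ N ≤ X (k + 1) ∧ M (k + 1) ≤ N ∧ ¬ Bd g (k + 1) N x}

lemma tendsto_on_SX {g : ℕ → ℤˣ} {M X : ℕ → ℕ} (hX : StrictMono X) (x : SS) {H : Finset ℕ}
    (hne : H.Nonempty) :
    Tendsto (fun N => FF (prodSeq g H) H N x) (atTop ⊓ 𝓟 (SX g M X x)) (𝓝 0) := by
  rw [Metric.tendsto_nhds]
  intro ε hε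
  obtain ⟨j, hj⟩ := exists_nat_one_div_lt (show 0 < ε / 2 by positivity)
  set k₀ := max j (H.sup id) with hk₀
  rw [eventually_inf_principal]
  filter_upwards [eventually_gt_atTop (X k₀)] with N hN hS
  obtain ⟨k, h1, h2, _, h4⟩ := hS
  have hk : k₀ < k + 1 := by
    by_contra hcon
    push Not at hcon
    have := hX.monotone hcon
    omega
  have hj' : (j:ℝ) + 1 ≤ ((k + 1 : ℕ) : ℝ) + 1 := by
    have : j ≤ k + 1 := ((le_max_left j _).trans hk.le)
    have h5 : (j:ℝ) ≤ ((k + 1 : ℕ) : ℝ) := by exact_mod_cast this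
    linarith
  have h5 : |FF (prodSeq g H) H N x| ≤ 2 / (((k + 1 : ℕ) : ℝ) + 1) := by
    by_contra hcon
    push Not at hcon
    apply h4
    refine ⟨H, ?_, hne, hcon⟩
    rw [Finset.mem_powerset]
    intro h hh
    rw [Finset.mem_range]
    have h6 : h ≤ H.sup id := Finset.le_sup (f := id) hh
    have h7 : H.sup id ≤ k₀ := le_max_right _ _
    omega
  rw [dist_zero_right, Real.norm_eq_abs]
  calc |FF (prodSeq g H) H N x| ≤ 2 / (((k + 1 : ℕ) : ℝ) + 1) := h5
    _ ≤ 2 / ((j:ℝ) + 1) := div_le_div_of_nonneg_left (by norm_num) (by positivity) hj'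
    _ = 2 * (1 / ((j:ℝ) + 1)) := by ring
    _ < ε := by linarith

lemma log_le_sum_inv_x (X : ℕ) : Real.log X ≤ ∑ k ∈ Finset.Icc 1 X, (1:ℝ) / k := by
  have h := log_add_one_le_harmonic X
  rw [harmonic_eq_sum_Icc] at h
  push_cast at h
  have h2 : Real.log X ≤ Real.log (X + 1) := by
    rcases Nat.eq_zero_or_pos X with h0 | h0
    · rw [h0]
      simp
    · exact Real.log_le_log (by exact_mod_cast h0) (by linarith)
  refine h2.trans (h.trans (le_of_eq ?_))
  refine Finset.sum_congr rfl fun k _ => ?_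
  rw [one_div]

open Classical in
lemma dens_SX {g : ℕ → ℤˣ} {M X : ℕ → ℕ} (hX : StrictMono X)
    (hlogX : ∀ k, 1 ≤ Real.log (X (k + 1)))
    (hgrow : ∀ k, 2 ^ (k + 1) * (1 + Real.log (max (X k) (M (k + 1)) : ℕ)) ≤
      Real.log (X (k + 1))) (x : SS)
    (hD : Tendsto (fun k => DK g k (M k) (X k) x) atTop (𝓝 0)) :
    Tendsto (fun k => (∑ N ∈ (Finset.Icc 1 (X k)).filter (fun N => N ∈ SX g M X x), (1:ℝ) / N) /
      Real.log (X k)) atTop (𝓝 1) := by
  rw [← tendsto_add_atTop_iff_nat 1]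
  have hlow : Tendsto (fun k : ℕ => 1 - (1 / 2 : ℝ) ^ (k + 1) -
      DK g (k + 1) (M (k + 1)) (X (k + 1)) x) atTop (𝓝 1) := by
    have h1 : Tendsto (fun k : ℕ => (1 / 2 : ℝ) ^ (k + 1)) atTop (𝓝 0) :=
      (tendsto_add_atTop_iff_nat 1).mpr
        (tendsto_pow_atTop_nhds_zero_of_lt_one (by norm_num) (by norm_num))
    have h2 := (h1.const_sub 1).sub ((tendsto_add_atTop_iff_nat 1).mpr hD)
    simpa using h2
  have hup : Tendsto (fun k : ℕ => 1 + 1 / Real.log (X (k + 1))) atTop (𝓝 1) := by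
    have h1 : Tendsto (fun k : ℕ => Real.log (X (k + 1))) atTop atTop := by
      refine Real.tendsto_log_atTop.comp (tendsto_natCast_atTop_atTop.comp ?_)
      exact (tendsto_add_atTop_iff_nat 1).mpr hX.tendsto_atTop
    have := (h1.const_div_atTop 1).const_add 1
    simpa using this
  refine tendsto_of_tendsto_of_tendsto_of_le_of_le hlow hup ?_ ?_
  · intro k
    show 1 - (1 / 2 : ℝ) ^ (k + 1) - DK g (k + 1) (M (k + 1)) (X (k + 1)) x ≤
      (∑ N ∈ (Finset.Icc 1 (X (k + 1))).filter (fun N => N ∈ SX g M X x), (1:ℝ) / N) /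
      Real.log (X (k + 1))
    set B := max (X k) (M (k + 1)) with hB
    set l := Real.log (X (k + 1)) with hl
    have hl0 : 0 < l := by linarith [hlogX k]
    rw [le_div_iff₀ hl0]
    have h1 : l ≤ ∑ N ∈ Finset.Icc 1 (X (k + 1)), (1:ℝ) / N := log_le_sum_inv_x _
    have h2 : ∑ N ∈ Finset.Icc 1 (X (k + 1)), (1:ℝ) / N ≤
        ∑ N ∈ Finset.Icc 1 B, (1:ℝ) / N +
        (∑ N ∈ (Finset.Icc 1 (X (k + 1))).filter (fun N => N ∈ SX g M X x), (1:ℝ) / N +
        ∑ N ∈ (Finset.Icc 1 (X (k + 1))).filter (fun N => M (k + 1) ≤ N),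
          (if Bd g (k + 1) N x then (1:ℝ) / N else 0)) := by
      have h3 : Finset.Icc 1 (X (k + 1)) ⊆ Finset.Icc 1 B ∪
          ((Finset.Icc 1 (X (k + 1))).filter (fun N => N ∈ SX g M X x) ∪
          ((Finset.Icc 1 (X (k + 1))).filter (fun N => M (k + 1) ≤ N)).filter
            (fun N => Bd g (k + 1) N x)) := by
        intro N hN
        rw [Finset.mem_Icc] at hN
        simp only [Finset.mem_union, Finset.mem_filter, Finset.mem_Icc]
        by_cases hNB : N ≤ B
        · exact Or.inl ⟨hN.1, hNB⟩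
        · right
          push Not at hNB
          have h4 : X k < N := lt_of_le_of_lt (le_max_left _ _) hNB
          have h5 : M (k + 1) < N := lt_of_le_of_lt (le_max_right _ _) hNB
          by_cases hbd : Bd g (k + 1) N x
          · exact Or.inr ⟨⟨hN, h5.le⟩, hbd⟩
          · exact Or.inl ⟨hN, k, h4, hN.2, h5.le, hbd⟩
      have hpos : ∀ N : ℕ, 0 ≤ (1:ℝ) / N := fun N => by positivity
      refine (Finset.sum_le_sum_of_subset_of_nonneg h3 fun _ _ _ => hpos _).trans ?_
      refine (sum_union_le hpos _ _).trans ?_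
      refine add_le_add le_rfl ((sum_union_le hpos _ _).trans (add_le_add le_rfl ?_))
      rw [Finset.sum_filter (fun N => Bd g (k + 1) N x)]
    have h4 : ∑ N ∈ Finset.Icc 1 B, (1:ℝ) / N ≤ 1 + Real.log B := sum_inv_le B
    have h5 : ∑ N ∈ (Finset.Icc 1 (X (k + 1))).filter (fun N => M (k + 1) ≤ N),
          (if Bd g (k + 1) N x then (1:ℝ) / N else 0) =
        DK g (k + 1) (M (k + 1)) (X (k + 1)) x * l := by
      unfold DK
      rw [div_mul_cancel₀ _ hl0.ne']
    have h6 : 1 + Real.log B ≤ (1 / 2 : ℝ) ^ (k + 1) * l := by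
      have h7 := hgrow k
      rw [← hB, ← hl] at h7
      rw [one_div, inv_pow, inv_mul_eq_div, le_div_iff₀ (by positivity)]
      linarith
    have h8 : (1 - (1 / 2 : ℝ) ^ (k + 1) - DK g (k + 1) (M (k + 1)) (X (k + 1)) x) * l =
        l - (1 / 2 : ℝ) ^ (k + 1) * l - DK g (k + 1) (M (k + 1)) (X (k + 1)) x * l := by ring
    rw [h8]
    linarith
  · intro k
    show (∑ N ∈ (Finset.Icc 1 (X (k + 1))).filter (fun N => N ∈ SX g M X x), (1:ℝ) / N) /
      Real.log (X (k + 1)) ≤ 1 + 1 / Real.log (X (k + 1))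
    have hl0 : 0 < Real.log (X (k + 1)) := by linarith [hlogX k]
    rw [div_le_iff₀ hl0]
    have h1 : (1 + 1 / Real.log (X (k + 1))) * Real.log (X (k + 1)) = 1 + Real.log (X (k + 1)) := by
      field_simp
      ring
    rw [h1]
    refine le_trans ?_ (sum_inv_le (X (k + 1)))
    exact Finset.sum_le_sum_of_subset_of_nonneg (Finset.filter_subset _ _) fun _ _ _ => by positivity

/-- the scales -/
noncomputable def XK (M : ℕ → ℕ) : ℕ → ℕ
  | 0 => M 0 + 3
  | (k + 1) => ⌈Real.exp (2 ^ (k + 1) * (1 + Real.log (max (XK M k) (M (k + 1)) : ℕ)))⌉₊ +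
      XK M k + M (k + 1) + 1

lemma XK_strictMono (M : ℕ → ℕ) : StrictMono (XK M) := by
  apply strictMono_nat_of_lt_succ
  intro k
  rw [XK]
  omega

lemma XK_ge (M : ℕ → ℕ) (k : ℕ) : M k ≤ XK M k := by
  cases k with
  | zero => rw [XK]; omega
  | succ k => rw [XK]; omega

lemma XK_growth (M : ℕ → ℕ) (k : ℕ) :
    2 ^ (k + 1) * (1 + Real.log (max (XK M k) (M (k + 1)) : ℕ)) ≤ Real.log (XK M (k + 1)) := by
  rw [← Real.log_exp (2 ^ (k + 1) * (1 + Real.log (max (XK M k) (M (k + 1)) : ℕ)))]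
  apply Real.log_le_log (Real.exp_pos _)
  refine (Nat.le_ceil _).trans ?_
  rw [XK]
  push_cast
  have h1 : (0:ℝ) ≤ (XK M k : ℝ) := Nat.cast_nonneg _
  have h2 : (0:ℝ) ≤ (M (k + 1) : ℝ) := Nat.cast_nonneg _
  linarith

lemma one_le_log_XK (M : ℕ → ℕ) (k : ℕ) : 1 ≤ Real.log (XK M k) := by
  have h1 : 3 ≤ XK M k := by
    have := (XK_strictMono M).monotone (Nat.zero_le k)
    rw [XK] at this
    omega
  have h2 : Real.exp 1 ≤ XK M k := by
    have h3 : Real.exp 1 ≤ 3 := by
      have := Real.exp_one_lt_d9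
      linarith
    exact h3.trans (by exact_mod_cast h1)
  rw [← Real.log_exp 1]
  exact Real.log_le_log (Real.exp_pos _) h2

open Classical in
lemma ae_dens {θ : ℕ → ℝ} (hθ : ∀ p, θ p = (ν p).real {-1}) {g : ℕ → ℤˣ} {M : ℕ → ℕ}
    (hM : ∀ k N, M k ≤ N → GoodSc θ g k N) :
    ∀ᵐ x ∂(Measure.infinitePi ν), ∃ S : Set ℕ, (∀ᶠ k in atTop, XK M k ∈ S) ∧
      Tendsto (fun k => (∑ N ∈ (Finset.Icc 1 (XK M k)).filter (fun N => N ∈ S), (1:ℝ) / N) /
        Real.log (XK M k)) atTop (𝓝 1) ∧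
      ∀ H : Finset ℕ, H.Nonempty →
        Tendsto (LA (prodSeq (fun n => g n * rnd x n) H)) (atTop ⊓ 𝓟 S) (𝓝 0) := by
  have hgeo : Summable fun k : ℕ => (2 * Real.exp (-1)) ^ k :=
    summable_geometric_of_lt_one (by positivity) ratio_lt_one
  have h1 := ae_tendsto_of_summable (μ := Measure.infinitePi ν)
    (f := fun k => DK g k (M k) (XK M k)) (fun k => measurable_DK g k _ _)
    (fun k x => DK_nonneg g k _ _ x) (fun k x => DK_le g k _ _ x) (hgeo.mul_left 8)
    (fun k => integral_DK_le hθ (hM k) (one_le_log_XK M k))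
  have h2 : ∀ᵐ x ∂(Measure.infinitePi ν), ∀ᶠ k in atTop, x ∉ {x | Bd g k (XK M k) x} := by
    apply ae_eventually_notMem
    have h3 : Summable fun k => (Measure.infinitePi ν).real {x | Bd g k (XK M k) x} :=
      Summable.of_nonneg_of_le (fun k => measureReal_nonneg)
        (fun k => prob_bad hθ (hM k _ (XK_ge M k))) (hgeo.mul_left 4)
    have h4 := h3.tsum_ofReal_ne_top
    have h5 : (fun k => ENNReal.ofReal ((Measure.infinitePi ν).real {x | Bd g k (XK M k) x})) =
        fun k => (Measure.infinitePi ν) {x | Bd g k (XK M k) x} := by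
      funext k
      exact ofReal_measureReal
    rwa [h5] at h4
  filter_upwards [h1, h2] with x hx1 hx2
  refine ⟨SX g M (XK M) x, ?_, ?_, ?_⟩
  · obtain ⟨k₀, hk₀⟩ := eventually_atTop.mp hx2
    filter_upwards [eventually_ge_atTop (k₀ + 1)] with k hk
    obtain ⟨j, rfl⟩ : ∃ j, k = j + 1 := ⟨k - 1, by omega⟩
    exact ⟨j, XK_strictMono M (Nat.lt_succ_self j), le_rfl, XK_ge M (j + 1), hk₀ (j + 1) (by omega)⟩
  · exact dens_SX (XK_strictMono M) (fun k => one_le_log_XK M (k + 1)) (XK_growth M) x hx1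
  · intro H hne
    refine (tendsto_on_SX (XK_strictMono M) x hne).congr fun N => ?_
    rw [LA_prodSeq_mul]

open Classical in
/-- divergent variance: convergence along a set of scales of upper logarithmic density one -/
lemma ae_dens_of_indep {Ω : Type*} [MeasurableSpace Ω] {P : Measure Ω} [IsProbabilityMeasure P]
    {ε : ℕ → Ω → ℤˣ} (hε : ∀ p, Measurable (ε p)) (hind : iIndepFun ε P)
    (hdiv : Div fun p => min (P.real {ω | ε p ω = -1}) (P.real {ω | ε p ω = 1}))
    (g : ℕ → ℤˣ) :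
    ∃ K : ℕ → ℕ, StrictMono K ∧ ∀ᵐ ω ∂P, ∃ S : Set ℕ, (∀ᶠ k in atTop, K k ∈ S) ∧
      Tendsto (fun k => (∑ N ∈ (Finset.Icc 1 (K k)).filter (fun N => N ∈ S), (1:ℝ) / N) /
        Real.log (K k)) atTop (𝓝 1) ∧
      ∀ H : Finset ℕ, H.Nonempty →
        Tendsto (LA (prodSeq (fun n => g n * rnd (fun p => ε p ω) n) H)) (atTop ⊓ 𝓟 S)
          (𝓝 0) := by
  set ν : ℕ → Measure ℤˣ := fun p => P.map (ε p) with hν
  have : ∀ p, IsProbabilityMeasure (ν p) := fun p =>
    Measure.isProbabilityMeasure_map (hε p).aemeasurable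
  have hmap := (iIndepFun_iff_map_fun_eq_infinitePi_map (fun p => hε p)).mp hind
  have hreal : ∀ p, (ν p).real {-1} = P.real {ω | ε p ω = -1} := by
    intro p
    rw [hν]
    rw [map_measureReal_apply (hε p) (measurableSet_singleton _)]
    rfl
  have hone : ∀ p, 1 - (ν p).real {-1} = P.real {ω | ε p ω = 1} := by
    intro p
    have hms : MeasurableSet {ω | ε p ω = -1} := hε p (measurableSet_singleton _)
    rw [hreal, ← probReal_compl_eq_one_sub hms]
    congr 1
    ext ω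
    simp only [Set.mem_compl_iff, Set.mem_ofPred_eq]
    rcases Int.units_eq_one_or (ε p ω) with h | h
    · rw [h]
      simp
    · rw [h]
      simp
  have hdiv' : Div fun p => min ((ν p).real {-1}) (1 - (ν p).real {-1}) := by
    have : (fun p => min ((ν p).real {-1}) (1 - (ν p).real {-1})) =
        fun p => min (P.real {ω | ε p ω = -1}) (P.real {ω | ε p ω = 1}) := by
      funext p
      rw [hone, hreal]
    rw [this]
    exact hdiv
  have hev := fun k => eventually_atTop.mp (eventually_GoodSc (θ := fun p => (ν p).real {-1})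
    (fun p => measureReal_nonneg) (fun p => measureReal_le_one) hdiv' g k)
  choose M hM using hev
  refine ⟨XK M, XK_strictMono M, ?_⟩
  have h1 := ae_dens (ν := ν) (θ := fun p => (ν p).real {-1}) (fun p => rfl) hM
  rw [← hmap] at h1
  exact ae_of_ae_map (measurable_pi_lambda _ hε).aemeasurable h1

end Pool.Agent.Lib.P4a7640
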