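import Mathlib
import Pool.Agent.Lib.P4a7640.Furst
import Pool.Agent.Lib.P4a7640.SubDens

/-!
# A Bernoulli Furstenberg system for every divergent random perturbation
-/

open MeasureTheory ProbabilityTheory Filter Topology
open Pool.Agent.Lib.P4a7640

namespace Pool.Agent.Results.MP_4a7640_nt.DivergentRandomSigns

open Classical in
/-- Let `g : ℕ → {-1,1}` be any multiplicative function and let `ε_p` be independent random signs,
with arbitrary biases, such that only
`∑_p min (P(ε_p = -1)) (P(ε_p = 1)) / p = ∞`.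
Let `f_ω = g * r_ω`, where `r_ω` is completely multiplicative with `r_ω(p) = ε_p(ω)`.
Then there is a deterministic sequence of scales `K k → ∞` such that almost surely `f_ω` is an
aperiodic multiplicative function and `μ_N` converges weak-* to the fair coin Bernoulli measure as
`N → ∞` in a set `S` of scales that contains `K k` for all large `k` and satisfies
`(∑_{N ≤ K k, N ∈ S} 1/N) / log (K k) → 1`; so `S` has upper logarithmic density one. In particular
almost surely the `(1/2, 1/2)` Bernoulli shift is a Furstenberg system of `f_ω`. -/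
theorem result {Ω : Type*} [MeasurableSpace Ω] (P : Measure Ω) [IsProbabilityMeasure P]
    (ε : ℕ → Ω → ℤˣ) (hε : ∀ p, Measurable (ε p)) (hind : iIndepFun ε P)
    (hdiv : Tendsto (fun N : ℕ => ∑ p ∈ (Finset.Icc 1 N).filter Nat.Prime,
      min (P.real {ω | ε p ω = -1}) (P.real {ω | ε p ω = 1}) / (p : ℝ)) atTop atTop)
    (g : ℕ → ℤˣ) (hg : MultS g) :
    ∃ K : ℕ → ℕ, StrictMono K ∧ ∀ᵐ ω ∂P, MultS (fun n => g n * rnd (fun p => ε p ω) n) ∧
      Aperiodic (fun n => g n * rnd (fun p => ε p ω) n) ∧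
      ∃ S : Set ℕ, (∀ᶠ k in atTop, K k ∈ S) ∧
        Tendsto (fun k => (∑ N ∈ (Finset.Icc 1 (K k)).filter (fun N => N ∈ S), (1:ℝ) / N) /
          Real.log (K k)) atTop (𝓝 1) ∧
        ∀ F : (ℤ → SignType) → ℝ, Continuous F →
          Tendsto (fun N => muInt (fun n => g n * rnd (fun p => ε p ω) n) N F) (atTop ⊓ 𝓟 S)
            (𝓝 (EE F)) := by
  obtain ⟨K, hK, hae⟩ := ae_dens_of_indep hε hind hdiv g
  refine ⟨K, hK, ?_⟩
  filter_upwards [hae] with ω hω
  obtain ⟨S, hS1, hS2, hS3⟩ := hω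
  have hm : MultS fun n => g n * rnd (fun p => ε p ω) n :=
    hg.mul fun m n hm hn _ => rnd_mul _ hm.ne' hn.ne'
  have hle : (atTop ⊓ 𝓟 S : Filter ℕ) ≤ atTop := inf_le_left
  have hne : (atTop ⊓ 𝓟 S : Filter ℕ).NeBot := by
    have h1 : Tendsto K atTop (atTop ⊓ 𝓟 S) :=
      tendsto_inf.mpr ⟨hK.tendsto_atTop, tendsto_principal.mpr hS1⟩
    exact h1.neBot
  have hv : VanishL (atTop ⊓ 𝓟 S) fun n => g n * rnd (fun p => ε p ω) n := fun H hne => hS3 H hne
  exact ⟨hm, hv.aperiodic hle hm, S, hS1, hS2, fun F hF => fairAlong_of_vanish hle hv F hF⟩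

end Pool.Agent.Results.MP_4a7640_nt.DivergentRandomSigns
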