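import Mathlib
import Pool.Agent.Lib.P4a7640.Avg

/-!
# Products of independent signs: the variance bound
-/

set_option autoImplicit false

open Finset MeasureTheory ProbabilityTheory

namespace Pool.Agent.Lib.P4a7640

/-- Independent `±1`-valued random variables indexed by the primes. -/
structure SignModel {Ω : Type*} [MeasurableSpace Ω] (P : Measure Ω) (X : ℕ → Ω → ℝ) : Prop where
  meas : ∀ p : ℕ, p.Prime → Measurable (X p)
  val : ∀ p : ℕ, p.Prime → ∀ ω, X p ω = 1 ∨ X p ω = -1
  ind : iIndepFun (fun p : Nat.Primes => X p) P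

section

variable {Ω : Type*} [MeasurableSpace Ω] {P : Measure Ω} [IsProbabilityMeasure P] {X : ℕ → Ω → ℝ}

/-- product of the signs over a finite set -/
def chi (X : ℕ → Ω → ℝ) (S : Finset ℕ) (ω : Ω) : ℝ := ∏ p ∈ S, X p ω

/-- product of the means over a finite set -/
noncomputable def bet (P : Measure Ω) (X : ℕ → Ω → ℝ) (S : Finset ℕ) : ℝ := ∏ p ∈ S, ∫ ω, X p ω ∂P

/-- all elements are primes -/
def AllPrime (S : Finset ℕ) : Prop := ∀ p ∈ S, p.Prime

lemma abs_chi (h : SignModel P X) {S : Finset ℕ} (hS : AllPrime S) (ω : Ω) : |chi X S ω| = 1 := by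
  unfold chi
  rw [Finset.abs_prod]
  apply Finset.prod_eq_one
  intro p hp
  rcases h.val p (hS p hp) ω with h1 | h1 <;> rw [h1] <;> simp

lemma measurable_chi (h : SignModel P X) {S : Finset ℕ} (hS : AllPrime S) : Measurable (chi X S) := by
  unfold chi
  exact Finset.measurable_fun_prod S fun p hp => h.meas p (hS p hp)

lemma integral_chi (h : SignModel P X) {S : Finset ℕ} (hS : AllPrime S) :
    ∫ ω, chi X S ω ∂P = bet P X S := by
  unfold chi bet
  have hinj : Function.Injective (fun i : {p // p ∈ S} => (⟨i.1, hS i.1 i.2⟩ : Nat.Primes)) := by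
    intro a b hab
    have : a.1 = b.1 := congrArg (fun q : Nat.Primes => (q : ℕ)) hab
    exact Subtype.ext this
  have h1 := (h.ind.precomp hinj).integral_fun_prod_eq_prod_integral
    (fun i => (h.meas i.1 (hS i.1 i.2)).aestronglyMeasurable)
  have e1 : ∀ ω, ∏ i : {p // p ∈ S}, X i.1 ω = ∏ p ∈ S, X p ω := by
    intro ω
    exact Finset.prod_coe_sort S (fun p => X p ω)
  have e2 : ∏ i : {p // p ∈ S}, ∫ ω, X i.1 ω ∂P = ∏ p ∈ S, ∫ ω, X p ω ∂P :=
    Finset.prod_coe_sort S (fun p => ∫ ω, X p ω ∂P)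
  rw [← e2, ← h1]
  apply integral_congr_ae
  filter_upwards with ω
  exact (e1 ω).symm

lemma chi_mul_chi (h : SignModel P X) {S T : Finset ℕ} (hS : AllPrime S) (ω : Ω) :
    chi X S ω * chi X T ω = chi X (symmDiff S T) ω := by
  unfold chi
  have h1 : ∏ p ∈ S, X p ω = (∏ p ∈ S \ T, X p ω) * ∏ p ∈ S ∩ T, X p ω := by
    rw [← Finset.prod_sdiff (Finset.inter_subset_left : S ∩ T ⊆ S), Finset.sdiff_inter_self_left]
  have h2 : ∏ p ∈ T, X p ω = (∏ p ∈ T \ S, X p ω) * ∏ p ∈ S ∩ T, X p ω := by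
    rw [← Finset.prod_sdiff (Finset.inter_subset_right : S ∩ T ⊆ T), Finset.inter_comm S T,
      Finset.sdiff_inter_self_left]
  have h3 : (∏ p ∈ S ∩ T, X p ω) * (∏ p ∈ S ∩ T, X p ω) = 1 := by
    rw [← Finset.prod_mul_distrib]
    apply Finset.prod_eq_one
    intro p hp
    rcases h.val p (hS p (Finset.mem_inter.1 hp).1) ω with h1 | h1 <;> rw [h1] <;> norm_num
  have h4 : symmDiff S T = (S \ T) ∪ (T \ S) := rfl
  rw [h1, h2, h4, Finset.prod_union (Finset.disjoint_left.2 fun a ha hb => by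
    rw [Finset.mem_sdiff] at ha hb; exact ha.2 hb.1)]
  calc (∏ p ∈ S \ T, X p ω) * (∏ p ∈ S ∩ T, X p ω) * ((∏ p ∈ T \ S, X p ω) * ∏ p ∈ S ∩ T, X p ω)
      = (∏ p ∈ S \ T, X p ω) * (∏ p ∈ T \ S, X p ω) *
        ((∏ p ∈ S ∩ T, X p ω) * (∏ p ∈ S ∩ T, X p ω)) := by ring
    _ = _ := by rw [h3, mul_one]

lemma chi_union {S T : Finset ℕ} (hd : Disjoint S T) (ω : Ω) :
    chi X (S ∪ T) ω = chi X S ω * chi X T ω := by
  unfold chi; exact Finset.prod_union hd

lemma bet_union {S T : Finset ℕ} (hd : Disjoint S T) :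
    bet P X (S ∪ T) = bet P X S * bet P X T := by
  unfold bet; exact Finset.prod_union hd

lemma abs_mean_le (h : SignModel P X) {p : ℕ} (hp : p.Prime) : |∫ ω, X p ω ∂P| ≤ 1 := by
  have : ‖∫ ω, X p ω ∂P‖ ≤ 1 * P.real Set.univ := by
    apply norm_integral_le_of_norm_le_const
    filter_upwards with ω
    rcases h.val p hp ω with h1 | h1 <;> rw [h1] <;> simp
  simpa using this

lemma abs_bet_le (h : SignModel P X) {S : Finset ℕ} (hS : AllPrime S) : |bet P X S| ≤ 1 := by
  unfold bet
  rw [Finset.abs_prod]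
  exact Finset.prod_le_one (fun p _ => abs_nonneg _) fun p hp => abs_mean_le h (hS p hp)

lemma AllPrime.symmDiff {S T : Finset ℕ} (hS : AllPrime S) (hT : AllPrime T) :
    AllPrime (symmDiff S T) := by
  intro p hp
  rw [Finset.mem_symmDiff] at hp
  rcases hp with h | h
  · exact hS p h.1
  · exact hT p h.1

lemma AllPrime.union {S T : Finset ℕ} (hS : AllPrime S) (hT : AllPrime T) : AllPrime (S ∪ T) := by
  intro p hp
  rw [Finset.mem_union] at hp
  rcases hp with h | h
  · exact hS p h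
  · exact hT p h

lemma integrable_of_bdd {f : Ω → ℝ} (hf : Measurable f) (C : ℝ) (hC : ∀ ω, |f ω| ≤ C) :
    Integrable f P := by
  apply Integrable.of_bound hf.aestronglyMeasurable C
  filter_upwards with ω
  exact hC ω

lemma integrable_chi (h : SignModel P X) {S : Finset ℕ} (hS : AllPrime S) :
    Integrable (chi X S) P :=
  integrable_of_bdd (measurable_chi h hS) 1 fun ω => (abs_chi h hS ω).le

/-- The covariance vanishes when the large parts are disjoint. -/
lemma cov_zero (h : SignModel P X) {A A' B B' : Finset ℕ} (hA : AllPrime A) (hA' : AllPrime A')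
    (hB : AllPrime B) (hB' : AllPrime B') (y : ℕ) (hAy : ∀ p ∈ A, p ≤ y) (hA'y : ∀ p ∈ A', p ≤ y)
    (hBy : ∀ p ∈ B, y < p) (hB'y : ∀ p ∈ B', y < p) (hd : Disjoint B B') :
    ∫ ω, (chi X A ω * (chi X B ω - bet P X B)) * (chi X A' ω * (chi X B' ω - bet P X B')) ∂P = 0 := by
  set T := symmDiff A A' with hT
  have hTp : AllPrime T := hA.symmDiff hA'
  have hTy : ∀ p ∈ T, p ≤ y := by
    intro p hp
    rw [hT, Finset.mem_symmDiff] at hp
    rcases hp with h | h
    · exact hAy p h.1
    · exact hA'y p h.1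
  have hTB : Disjoint T B := Finset.disjoint_left.2 fun p h1 h2 => by
    have := hTy p h1; have := hBy p h2; omega
  have hTB' : Disjoint T B' := Finset.disjoint_left.2 fun p h1 h2 => by
    have := hTy p h1; have := hB'y p h2; omega
  have hTBB' : Disjoint (T ∪ B) B' := by
    rw [Finset.disjoint_union_left]; exact ⟨hTB', hd⟩
  have e : ∀ ω, (chi X A ω * (chi X B ω - bet P X B)) * (chi X A' ω * (chi X B' ω - bet P X B')) =
      chi X (T ∪ B ∪ B') ω - bet P X B' * chi X (T ∪ B) ω - bet P X B * chi X (T ∪ B') ω +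
        bet P X B * bet P X B' * chi X T ω := by
    intro ω
    rw [chi_union hTBB', chi_union hTB, chi_union hTB', hT, ← chi_mul_chi h hA]
    ring
  have hi1 := integrable_chi h ((hTp.union hB).union hB')
  have hi2 := (integrable_chi h (hTp.union hB)).const_mul (bet P X B')
  have hi3 := (integrable_chi h (hTp.union hB')).const_mul (bet P X B)
  have hi4 := (integrable_chi h hTp).const_mul (bet P X B * bet P X B')
  calc ∫ ω, (chi X A ω * (chi X B ω - bet P X B)) * (chi X A' ω * (chi X B' ω - bet P X B')) ∂P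
      = ∫ ω, (chi X (T ∪ B ∪ B') ω - bet P X B' * chi X (T ∪ B) ω - bet P X B * chi X (T ∪ B') ω +
        bet P X B * bet P X B' * chi X T ω) ∂P := by
        apply integral_congr_ae; filter_upwards with ω; exact e ω
    _ = ∫ ω, chi X (T ∪ B ∪ B') ω ∂P - ∫ ω, bet P X B' * chi X (T ∪ B) ω ∂P -
        ∫ ω, bet P X B * chi X (T ∪ B') ω ∂P + ∫ ω, bet P X B * bet P X B' * chi X T ω ∂P := by
        have i12 : Integrable (fun ω => chi X (T ∪ B ∪ B') ω - bet P X B' * chi X (T ∪ B) ω) P :=
          hi1.sub hi2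
        have i123 : Integrable (fun ω => chi X (T ∪ B ∪ B') ω - bet P X B' * chi X (T ∪ B) ω -
            bet P X B * chi X (T ∪ B') ω) P := i12.sub hi3
        rw [integral_add i123 hi4, integral_sub i12 hi3, integral_sub hi1 hi2]
    _ = 0 := by
        rw [integral_const_mul, integral_const_mul, integral_const_mul,
          integral_chi h ((hTp.union hB).union hB'), integral_chi h (hTp.union hB),
          integral_chi h (hTp.union hB'), integral_chi h hTp, bet_union hTBB', bet_union hTB,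
          bet_union hTB']
        ring

/-- The fluctuation of a weighted sum of characters given the small primes. -/
noncomputable def fluct (P : Measure Ω) (X : ℕ → Ω → ℝ) (I : Finset ℕ) (c : ℕ → ℝ)
    (A B : ℕ → Finset ℕ) (ω : Ω) : ℝ :=
  ∑ n ∈ I, c n * (chi X (A n) ω * (chi X (B n) ω - bet P X (B n)))

/-- Variance bound. -/
theorem var_bound (h : SignModel P X) (I : Finset ℕ) (c : ℕ → ℝ) (A B : ℕ → Finset ℕ)
    (hA : ∀ n, AllPrime (A n)) (hB : ∀ n, AllPrime (B n)) (y : ℕ)
    (hAy : ∀ n, ∀ p ∈ A n, p ≤ y) (hBy : ∀ n, ∀ p ∈ B n, y < p) (Q : Finset ℕ)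
    (hQ : ∀ n ∈ I, B n ⊆ Q) :
    ∫ ω, (fluct P X I c A B ω) ^ 2 ∂P ≤
      4 * ∑ p ∈ Q, (∑ n ∈ I, if p ∈ B n then |c n| else 0) ^ 2 := by
  classical
  set Z : ℕ → Ω → ℝ := fun n ω => chi X (A n) ω * (chi X (B n) ω - bet P X (B n)) with hZ
  have hZm : ∀ n, Measurable (Z n) := fun n =>
    (measurable_chi h (hA n)).mul ((measurable_chi h (hB n)).sub measurable_const)
  have hZb : ∀ n ω, |Z n ω| ≤ 2 := by
    intro n ω
    simp only [hZ, abs_mul, abs_chi h (hA n), one_mul]
    calc |chi X (B n) ω - bet P X (B n)| ≤ |chi X (B n) ω| + |bet P X (B n)| := abs_sub _ _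
      _ ≤ 1 + 1 := add_le_add (abs_chi h (hB n) ω).le (abs_bet_le h (hB n))
      _ = 2 := by norm_num
  have hZZi : ∀ n n', Integrable (fun ω => Z n ω * Z n' ω) P := by
    intro n n'
    apply integrable_of_bdd ((hZm n).mul (hZm n')) (2 * 2)
    intro ω
    show |Z n ω * Z n' ω| ≤ 2 * 2
    rw [abs_mul]
    exact mul_le_mul (hZb n ω) (hZb n' ω) (abs_nonneg _) (by norm_num)
  have hZZ : ∀ n n', |∫ ω, Z n ω * Z n' ω ∂P| ≤ if Disjoint (B n) (B n') then 0 else 4 := by
    intro n n'
    split_ifs with hd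
    · have := cov_zero h (hA n) (hA n') (hB n) (hB n') y (hAy n) (hAy n') (hBy n) (hBy n') hd
      rw [show (∫ ω, Z n ω * Z n' ω ∂P) = 0 from this]
      simp
    · have : ‖∫ ω, Z n ω * Z n' ω ∂P‖ ≤ 4 * P.real Set.univ := by
        apply norm_integral_le_of_norm_le_const
        filter_upwards with ω
        rw [Real.norm_eq_abs, abs_mul]
        calc |Z n ω| * |Z n' ω| ≤ 2 * 2 :=
              mul_le_mul (hZb n ω) (hZb n' ω) (abs_nonneg _) (by norm_num)
          _ = 4 := by norm_num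
      simpa using this
  have hexp : ∀ ω, (fluct P X I c A B ω) ^ 2 =
      ∑ n ∈ I, ∑ n' ∈ I, (c n * c n') * (Z n ω * Z n' ω) := by
    intro ω
    unfold fluct
    rw [sq, Finset.sum_mul_sum]
    refine Finset.sum_congr rfl fun n _ => Finset.sum_congr rfl fun n' _ => ?_
    simp only [hZ]; ring
  have hint : ∫ ω, (fluct P X I c A B ω) ^ 2 ∂P =
      ∑ n ∈ I, ∑ n' ∈ I, (c n * c n') * ∫ ω, Z n ω * Z n' ω ∂P := by
    rw [integral_congr_ae (Filter.Eventually.of_forall hexp)]
    rw [integral_finsetSum]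
    · refine Finset.sum_congr rfl fun n _ => ?_
      rw [integral_finsetSum]
      · refine Finset.sum_congr rfl fun n' _ => ?_
        rw [integral_const_mul]
      · intro n' _
        exact (hZZi n n').const_mul _
    · intro n _
      apply integrable_finsetSum
      intro n' _
      exact (hZZi n n').const_mul _
  rw [hint]
  calc ∑ n ∈ I, ∑ n' ∈ I, (c n * c n') * ∫ ω, Z n ω * Z n' ω ∂P
      ≤ ∑ n ∈ I, ∑ n' ∈ I, ∑ p ∈ Q, 4 * ((if p ∈ B n then |c n| else 0) *
          (if p ∈ B n' then |c n'| else 0)) := by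
        refine Finset.sum_le_sum fun n hn => Finset.sum_le_sum fun n' hn' => ?_
        have h1 : (c n * c n') * ∫ ω, Z n ω * Z n' ω ∂P ≤
            |c n| * |c n'| * (if Disjoint (B n) (B n') then 0 else 4) := by
          calc (c n * c n') * ∫ ω, Z n ω * Z n' ω ∂P ≤ |(c n * c n') * ∫ ω, Z n ω * Z n' ω ∂P| :=
                le_abs_self _
            _ = |c n| * |c n'| * |∫ ω, Z n ω * Z n' ω ∂P| := by rw [abs_mul, abs_mul]
            _ ≤ _ := mul_le_mul_of_nonneg_left (hZZ n n') (by positivity)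
        refine h1.trans ?_
        have hnn : ∀ p ∈ Q, (0 : ℝ) ≤ 4 * ((if p ∈ B n then |c n| else 0) *
          (if p ∈ B n' then |c n'| else 0)) := by
          intro p _
          split_ifs <;> positivity
        split_ifs with hd
        · rw [mul_zero]
          exact Finset.sum_nonneg hnn
        · rw [Finset.not_disjoint_iff] at hd
          obtain ⟨p, hp1, hp2⟩ := hd
          calc |c n| * |c n'| * 4 = 4 * ((if p ∈ B n then |c n| else 0) *
              (if p ∈ B n' then |c n'| else 0)) := by rw [if_pos hp1, if_pos hp2]; ring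
            _ ≤ _ := Finset.single_le_sum hnn (hQ n hn hp1)
    _ = 4 * ∑ p ∈ Q, (∑ n ∈ I, if p ∈ B n then |c n| else 0) ^ 2 := by
        rw [Finset.mul_sum]
        have : ∀ n ∈ I, ∑ n' ∈ I, ∑ p ∈ Q, 4 * ((if p ∈ B n then |c n| else 0) *
          (if p ∈ B n' then |c n'| else 0)) = ∑ p ∈ Q, ∑ n' ∈ I, 4 * ((if p ∈ B n then |c n| else 0) *
          (if p ∈ B n' then |c n'| else 0)) := fun n _ => Finset.sum_comm
        rw [Finset.sum_congr rfl this, Finset.sum_comm]
        refine Finset.sum_congr rfl fun p _ => ?_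
        rw [sq, Finset.sum_mul_sum, Finset.mul_sum]
        refine Finset.sum_congr rfl fun n _ => ?_
        rw [Finset.mul_sum]

end

end Pool.Agent.Lib.P4a7640
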