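import Mathlib
import Pool.Agent.Lib.P4a7640.Furst
import Pool.Agent.Lib.P4a7640.Sub

/-!
# Almost every sparse random perturbation of a multiplicative function satisfies Q1
-/

open MeasureTheory ProbabilityTheory Filter Topology
open Pool.Agent.Lib.P4a7640

namespace Pool.Agent.Lib.P4a7640.SparseResult

/-- Let `g : ℕ → {-1,1}` be any multiplicative function (for instance the Liouville function) and
let `ε_p` be independent random signs, with arbitrary biases (the values may be deterministic for
most primes), such that
`∑_{log log log N < p ≤ N} min (P(ε_p = -1)) (P(ε_p = 1)) / p → ∞` as `N → ∞`.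
Let `f_ω = g * r_ω`, where `r_ω` is completely multiplicative with `r_ω(p) = ε_p(ω)`.
Then almost surely `f_ω` is an aperiodic multiplicative function, it has a unique Furstenberg
system, and this system is the `(1/2, 1/2)` Bernoulli shift. -/
theorem result {Ω : Type*} [MeasurableSpace Ω] (P : Measure Ω) [IsProbabilityMeasure P]
    (ε : ℕ → Ω → ℤˣ) (hε : ∀ p, Measurable (ε p)) (hind : iIndepFun ε P)
    (hgrow : Tendsto (fun N : ℕ => ∑ p ∈ (Finset.Icc 1 N).filter
      (fun p : ℕ => p.Prime ∧ Real.log (Real.log (Real.log N)) < (p : ℝ)),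
        min (P.real {ω | ε p ω = -1}) (P.real {ω | ε p ω = 1}) / (p : ℝ)) atTop atTop)
    (g : ℕ → ℤˣ) (hg : MultS g) :
    ∀ᵐ ω ∂P, MultS (fun n => g n * rnd (fun p => ε p ω) n) ∧
      Aperiodic (fun n => g n * rnd (fun p => ε p ω) n) ∧
      FairSystem (fun n => g n * rnd (fun p => ε p ω) n) := by
  have hstar := star_of_one (τ := fun p => min (P.real {ω | ε p ω = -1}) (P.real {ω | ε p ω = 1}))
    (fun p => le_min measureReal_nonneg measureReal_nonneg)
    (fun p => (min_le_left _ _).trans measureReal_le_one) hgrow
  filter_upwards [ae_corr_of_indep hε hind hstar g] with ω hω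
  have hm : MultS fun n => g n * rnd (fun p => ε p ω) n :=
    hg.mul fun m n hm hn _ => rnd_mul _ hm.ne' hn.ne'
  have hv : Vanish fun n => g n * rnd (fun p => ε p ω) n := hω
  exact ⟨hm, hv.aperiodic hm, fairAlong_of_vanish le_rfl hv⟩

end Pool.Agent.Lib.P4a7640.SparseResult
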