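import Mathlib
import Pool.Agent.Lib.P4a7640.Furst

/-!
# The conclusion of Q1 is stable under perturbations of slowly growing distance
-/

open Filter Topology
open Pool.Agent.Lib.P4a7640

namespace Pool.Agent.Results.MP_4a7640_nt.Stability

/-- Let `g : ℕ → {-1,1}` be a multiplicative function whose unique Furstenberg system is the
`(1/2, 1/2)` Bernoulli shift. There is `y(N) → ∞` such that every multiplicative
`f : ℕ → {-1,1}` for which some Dirichlet character `χ` satisfies
`∑_{y(N) < p ≤ N} (1 - Re (f(p) g(p) conj (χ(p)))) / p → 0` has the same unique Furstenberg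
system. -/
theorem result (g : ℕ → ℤˣ) (hg : MultS g) (hfair : FairSystem g) :
    ∃ y : ℕ → ℕ, Tendsto y atTop atTop ∧ ∀ f : ℕ → ℤˣ, MultS f →
      ∀ q : ℕ, 0 < q → ∀ χ : DirichletCharacter ℂ q,
        Tendsto (fun N => DD (fun p => f p * g p) χ (y N) N) atTop (𝓝 0) → FairSystem f := by
  obtain ⟨y, hy, h⟩ := stable_DD (g := g) (vanish_of_fairAlong hfair)
  exact ⟨y, hy, fun f hf q hq χ hlim =>
    fairAlong_of_vanish le_rfl (h f (hf.mul hg) q χ hq hlim)⟩

end Pool.Agent.Results.MP_4a7640_nt.Stability
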